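import Pool.Agent.H81.MP5.Core

set_option autoImplicit false

/-!
From a list of vertex records to a monotone path; the facets may be covered by vertices which are
not on the path.
-/

namespace Pool.Agent.H81.MPA

open Matrix Pool.Agent.H81.MonoPath Pool.Agent.H81.MP5

variable {d n : ℕ}

/-- Certificate theorem; every inequality is tight at some simple vertex. -/
theorem hasMonotonePath_of_cert' {m : ℕ} (a : Fin n → Fin d → ℝ) (b : Fin n → ℝ)
    (c : Fin d → ℝ) (T : Fin m → Fin d → Fin n) (v : Fin m → Fin d → ℝ)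
    (R : Fin m → Matrix (Fin d) (Fin d) ℝ) (hV : ∀ i, Vtx a b (T i) (v i) (R i))
    (hcover : ∀ j, ∃ (T' : Fin d → Fin n) (v' : Fin d → ℝ) (R' : Matrix (Fin d) (Fin d) ℝ),
      Vtx a b T' v' R' ∧ ∃ k, T' k = j) (hn : 0 < n)
    (hedge : ∀ i j : Fin m, (j : ℕ) = i + 1 → ∃ k k', (∀ l, T j l ≠ T i k) ∧
      (∀ l, T i l ≠ T j k') ∧ (∀ l, l ≠ k → ∃ l', T j l' = T i l))
    (hmono : ∀ i j : Fin m, (j : ℕ) = i + 1 → c ⬝ᵥ v i < c ⬝ᵥ v j) :
    HasMonotonePath d n m := by
  have : Nonempty (Fin n) := ⟨⟨0, hn⟩⟩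
  obtain ⟨T0, v0, R0, hV0, k₀, -⟩ := hcover ⟨0, hn⟩
  have hdim : dim (poly a b) = d := hV0.dim_poly
  have ha : ∀ j, a j ≠ 0 := by
    intro j
    obtain ⟨T', v', R', hV', k, rfl⟩ := hcover j
    exact hV'.ne_zero k
  have hfac : facets (poly a b) = Set.range (fac a b) := by
    ext F
    constructor
    · intro hF
      obtain ⟨j, hj⟩ := facet_eq_fac ha hdim F hF
      exact ⟨j, hj.symm⟩
    · rintro ⟨j, rfl⟩
      obtain ⟨T', v', R', hV', k, rfl⟩ := hcover j
      exact ⟨hV'.isFace_fac k, hV'.dim_fac k⟩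
  have hinj : Function.Injective (fac a b) := by
    intro j j' hjj'
    by_contra hne
    obtain ⟨T', v', R', hV', k, rfl⟩ := hcover j
    exact hV'.fac_ne k j' hne hjj'
  refine ⟨poly a b, ⟨n, a, b, rfl⟩, ⟨v0, hV0.mem⟩, hdim, ?_, ?_, lin c, v, ?_, ?_⟩
  · rw [hfac]; exact Set.finite_range _
  · rw [hfac, ← Set.image_univ, Set.ncard_image_of_injective _ hinj, Set.ncard_univ,
      Nat.card_eq_fintype_card, Fintype.card_fin]
  · intro i; exact (hV i).isFace
  · intro i j hij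
    obtain ⟨k, k', h1, h2, h3⟩ := hedge i j hij
    exact ⟨isFace_segment (hV i) (hV j) k k' h1 h2 h3, hmono i j hij⟩

section
variable {H : ℕ → Form d} {k : ℕ} {p : Vx d}

/-- the tight list of a record -/
noncomputable def tl (hp : IsV H k p) (q : Fin d) : Fin (k + 1) :=
  ⟨p.T.orderEmbOfFin hp.card q, Nat.lt_succ_of_le (hp.le _ (Finset.orderEmbOfFin_mem _ _ _))⟩

lemma tl_mem (hp : IsV H k p) (q : Fin d) : ((tl hp q : Fin (k + 1)) : ℕ) ∈ p.T :=
  Finset.orderEmbOfFin_mem _ _ _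

lemma tl_ex (hp : IsV H k p) {F : ℕ} (hF : F ∈ p.T) : ∃ q, ((tl hp q : Fin (k + 1)) : ℕ) = F := by
  have h1 : F ∈ Set.range (p.T.orderEmbOfFin hp.card) := by
    rw [Finset.range_orderEmbOfFin]
    exact hF
  obtain ⟨q, hq⟩ := h1
  exact ⟨q, hq⟩

lemma tl_inj (hp : IsV H k p) : Function.Injective (tl hp) := by
  intro q q' hqq
  have h1 : ((tl hp q : Fin (k + 1)) : ℕ) = (tl hp q' : Fin (k + 1)) := by rw [hqq]
  exact (p.T.orderEmbOfFin hp.card).injective h1

/-- the inverse matrix of a record -/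
noncomputable def rm (hp : IsV H k p) : Matrix (Fin d) (Fin d) ℝ :=
  Matrix.of fun q l => - (p.u (tl hp l) q)

lemma vtx_of (hp : IsV H k p) :
    Vtx (fun F : Fin (k + 1) => (H F).1) (fun F : Fin (k + 1) => (H F).2) (tl hp) p.x
      (rm hp) := by
  refine ⟨?_, ?_, ?_⟩
  · rw [mul_eq_one_comm]
    ext i l
    rw [Matrix.mul_apply, Matrix.one_apply]
    have h1 := hp.dual _ (tl_mem hp i) _ (tl_mem hp l)
    have h2 : ∑ q, (Matrix.of fun l => (fun F : Fin (k + 1) => (H F).1) (tl hp l)) i q * rm hp q l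
        = D (H (tl hp i)) (p.u (tl hp l)) := by
      simp only [D, dotProduct, Matrix.of_apply, rm]
      rw [← Finset.sum_neg_distrib]
      apply Finset.sum_congr rfl
      intro q _
      ring
    rw [h2, h1]
    have h3 : ((tl hp i : Fin (k + 1)) : ℕ) = (tl hp l : Fin (k + 1)) ↔ i = l := by
      constructor
      · intro h4
        exact tl_inj hp (Fin.ext h4)
      · rintro rfl; rfl
    simp only [h3]
  · intro q
    have h1 := hp.tight _ (tl_mem hp q)
    simp only [ev] at h1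
    change (H (tl hp q)).1 ⬝ᵥ p.x = (H (tl hp q)).2
    linarith
  · intro j hj
    have h1 : (j : ℕ) ∉ p.T := by
      intro h2
      obtain ⟨q, hq⟩ := tl_ex hp h2
      exact hj q (Fin.ext hq)
    have h2 := hp.pos j (Nat.lt_succ_iff.1 j.2) h1
    simp only [ev] at h2
    change (H j).1 ⬝ᵥ p.x < (H j).2
    linarith

end

/-- From a list of vertex records to a monotone path. -/
theorem hasMonotonePath_of_list' (H : ℕ → Form d) (k : ℕ) (c : Fin d → ℝ) (L : List (Vx d))
    (hV : ∀ p ∈ L, IsV H k p)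
    (hchain : L.IsChain (fun p q => c ⬝ᵥ p.x < c ⬝ᵥ q.x ∧ ∃ F F', p.T \ q.T = {F} ∧
      q.T \ p.T = {F'}))
    (hcover : ∀ F, F ≤ k → ∃ p, IsV H k p ∧ F ∈ p.T) :
    HasMonotonePath d (k + 1) L.length := by
  classical
  have hVi : ∀ i : Fin L.length, IsV H k (L.get i) := fun i => hV _ (List.get_mem L i)
  have hchain' := List.isChain_iff_getElem.1 hchain
  refine hasMonotonePath_of_cert' (fun F : Fin (k + 1) => (H F).1)
    (fun F : Fin (k + 1) => (H F).2) c (fun i => tl (hVi i)) (fun i => (L.get i).x)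
    (fun i => rm (hVi i)) (fun i => vtx_of (hVi i)) ?_ (Nat.succ_pos k) ?_ ?_
  · intro j
    obtain ⟨p, hp, hj⟩ := hcover j (Nat.lt_succ_iff.1 j.2)
    obtain ⟨q, hq⟩ := tl_ex hp hj
    exact ⟨tl hp, p.x, rm hp, vtx_of hp, q, Fin.ext hq⟩
  · intro i j hij
    have h1 := hchain' i (by rw [← hij]; exact j.2)
    have hj : (L[(i : ℕ) + 1]'(by rw [← hij]; exact j.2)) = L.get j := by
      simp only [List.get_eq_getElem, hij]
    have hi : (L[(i : ℕ)]'i.2) = L.get i := rfl
    rw [hj, hi] at h1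
    obtain ⟨-, F, F', hF, hF'⟩ := h1
    have hFm : F ∈ (L.get i).T \ (L.get j).T := by rw [hF]; exact Finset.mem_singleton_self F
    have hFm' : F' ∈ (L.get j).T \ (L.get i).T := by rw [hF']; exact Finset.mem_singleton_self F'
    rw [Finset.mem_sdiff] at hFm hFm'
    obtain ⟨q, hq⟩ := tl_ex (hVi i) hFm.1
    obtain ⟨q', hq'⟩ := tl_ex (hVi j) hFm'.1
    refine ⟨q, q', ?_, ?_, ?_⟩
    · intro l hl
      apply hFm.2
      rw [← hq, ← hl]
      exact tl_mem (hVi j) l
    · intro l hl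
      apply hFm'.2
      rw [← hq', ← hl]
      exact tl_mem (hVi i) l
    · intro l hl
      have h2 : ((tl (hVi i) l : Fin (k + 1)) : ℕ) ∈ (L.get j).T := by
        by_contra h3
        have h4 : ((tl (hVi i) l : Fin (k + 1)) : ℕ) ∈ (L.get i).T \ (L.get j).T :=
          Finset.mem_sdiff.2 ⟨tl_mem (hVi i) l, h3⟩
        rw [hF, Finset.mem_singleton, ← hq] at h4
        exact hl (tl_inj (hVi i) (Fin.ext h4))
      obtain ⟨l', hl'⟩ := tl_ex (hVi j) h2
      exact ⟨l', Fin.ext hl'⟩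
  · intro i j hij
    have h1 := hchain' i (by rw [← hij]; exact j.2)
    have hj : (L[(i : ℕ) + 1]'(by rw [← hij]; exact j.2)) = L.get j := by
      simp only [List.get_eq_getElem, hij]
    have hi : (L[(i : ℕ)]'i.2) = L.get i := rfl
    rw [hj, hi] at h1
    exact h1.1

end Pool.Agent.H81.MPA
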