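import Pool.Agent.H81.MPA.Grow

set_option autoImplicit false

/-!
Lower bounds for the length of the words grown from the initial words.
-/

namespace Pool.Agent.H81.MPA

lemma ne_ge_up {J A s : ℕ} (hA : ∀ β γ, A ≤ lb J 4 (s + 1) β γ) {k σ : ℕ} (hk : k + σ = 4)
    (r r' : Bool) : A ≤ ne (J + σ) k (s, r') (s + 1, r) := by
  obtain ⟨γ', h⟩ := lb_persist σ J k (s + 1) (!r) (!r')
  rw [hk] at h
  exact ((hA _ _).trans h).trans (ne_lb (J + σ) k s r' r).1

lemma ne_ge_down {J A s : ℕ} (hA : ∀ β γ, A ≤ lb J 4 (s + 1) β γ) {k σ : ℕ} (hk : k + σ = 4)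
    (r r' : Bool) : A ≤ ne (J + σ) k (s + 1, r) (s, r') := by
  obtain ⟨γ', h⟩ := lb_persist σ J k (s + 1) r r'
  rw [hk] at h
  exact ((hA _ _).trans h).trans (ne_lb (J + σ) k s r r').2

lemma E_both (t : ℕ) (b : Bool) : E t 0 = b ∨ E t 1 = b ∨ E t 2 = b ∨ E t 3 = b := by
  rcases Nat.mod_two_eq_zero_or_one t with h | h
  · have a0 := Ee0 h 0
    have a1 := Ee1 h 0
    simp only [mul_zero, zero_add] at a0 a1
    cases b
    · exact Or.inr (Or.inl a1)
    · exact Or.inl a0
  · have a0 := Eo0 h 0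
    have a2 := Eo2 h 0
    simp only [mul_zero, zero_add] at a0 a2
    cases b
    · exact Or.inr (Or.inr (Or.inl a2))
    · exact Or.inl a0

lemma nl_ge {J A s : ℕ} (hA : ∀ β γ, A ≤ lb J 4 (s + 1) β γ) (r : Bool) :
    A ≤ nl (J + 4) 0 (s + 1, r) := by
  have key : ∀ k σ : ℕ, k + 1 + σ = 4 → A ≤ ne (J + σ) (k + 1) (lo k (s + 1, r)) (s + 1, r) :=
    fun k σ hk => ne_ge_up hA hk _ _
  change A ≤ nl (J + 3 + 1) 0 (s + 1, r)
  rw [nl]
  split_ifs with h0
  · exact key 0 3 rfl
  change A ≤ nl (J + 2 + 1) 1 (s + 1, r)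
  rw [nl]
  split_ifs with h1
  · exact key 1 2 rfl
  change A ≤ nl (J + 1 + 1) 2 (s + 1, r)
  rw [nl]
  split_ifs with h2
  · exact key 2 1 rfl
  change A ≤ nl (J + 0 + 1) 3 (s + 1, r)
  rw [nl]
  split_ifs with h3
  · exact key 3 0 rfl
  exfalso
  have hE := E_both (s + 1) (!r)
  clear key hA
  simp only [endL, q] at h0 h1 h2 h3
  revert h0 h1 h2 h3 hE
  cases r <;> cases E (s + 1) 0 <;> cases E (s + 1) 1 <;> cases E (s + 1) 2 <;>
    cases E (s + 1) 3 <;> simp

lemma nr_ge {J A s : ℕ} (hA : ∀ β γ, A ≤ lb J 4 (s + 1) β γ) (r : Bool) :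
    A ≤ nr (J + 4) 0 (s + 1, r) := by
  have key : ∀ k σ : ℕ, k + 1 + σ = 4 → A ≤ ne (J + σ) (k + 1) (s + 1, r) (lo k (s + 1, r)) :=
    fun k σ hk => ne_ge_down hA hk _ _
  change A ≤ nr (J + 3 + 1) 0 (s + 1, r)
  rw [nr]
  split_ifs with h0
  · exact key 0 3 rfl
  change A ≤ nr (J + 2 + 1) 1 (s + 1, r)
  rw [nr]
  split_ifs with h1
  · exact key 1 2 rfl
  change A ≤ nr (J + 1 + 1) 2 (s + 1, r)
  rw [nr]
  split_ifs with h2
  · exact key 2 1 rfl
  change A ≤ nr (J + 0 + 1) 3 (s + 1, r)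
  rw [nr]
  split_ifs with h3
  · exact key 3 0 rfl
  exfalso
  have hE := E_both (s + 1) r
  clear key hA
  simp only [endR, q] at h0 h1 h2 h3
  revert h0 h1 h2 h3 hE
  cases r <;> cases E (s + 1) 0 <;> cases E (s + 1) 1 <;> cases E (s + 1) 2 <;>
    cases E (s + 1) 3 <;> simp

lemma ne_flat_ge {J A s : ℕ} (hA : ∀ β γ, A ≤ lb J 4 (s + 1) β γ) :
    2 * A ≤ ne (J + 4) 0 (s + 1, true) (s + 1, false) := by
  have e0 : E (s + 1) 0 = true := by
    rcases Nat.mod_two_eq_zero_or_one (s + 1) with h | h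
    · have a0 := Ee0 h 0
      simpa using a0
    · have a0 := Eo0 h 0
      simpa using a0
  have h1 := ne_ge_down hA (k := 1) (σ := 3) rfl true (true == E s 0)
  have h2 := ne_ge_up hA (k := 1) (σ := 3) rfl false (false == E s 0)
  have h3 : ne (J + 4) 0 (s + 1, true) (s + 1, false) =
      ps (ne (J + 3) 1) [(s + 1, true), (s, true == E s 0), (s, false == E s 0),
        (s + 1, false)] := by
    change ps (ne (J + 3) (0 + 1)) _ = _
    simp [gapW, gap, useR, useL, q, lo, e0]
  rw [h3]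
  simp only [ps]
  omega

lemma growth4 (m i : ℕ) : ∀ β γ, 2 * 4 ^ m * i.choose (m + 1) ≤
    lb (4 * (i + (m + 1))) 4 (m + 1) β γ := by
  intro β γ
  have := (lb_growth m).2 i 1 β γ
  rwa [mul_one] at this

/-- length from one letter -/
theorem len_even (m i : ℕ) :
    4 ^ (m + 1) * i.choose (m + 1) ≤ (it (4 * (i + (m + 1)) + 4) 0 [(m + 1, true)]).length := by
  refine le_trans ?_ (Tot_le _ _ _)
  have h1 := nl_ge (growth4 m i) true
  have h2 := nr_ge (growth4 m i) true
  simp only [Tot, Rl]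
  rw [pow_succ]
  nlinarith

/-- length from two letters -/
theorem len_odd (m i : ℕ) :
    2 * (4 ^ (m + 1) * i.choose (m + 1)) ≤
      (it (4 * (i + (m + 1)) + 4) 0 [(m + 1, true), (m + 1, false)]).length := by
  refine le_trans ?_ (Tot_le _ _ _)
  have h1 := nl_ge (growth4 m i) true
  have h2 := nr_ge (growth4 m i) false
  have h3 := ne_flat_ge (growth4 m i)
  simp only [Tot, Rl]
  rw [pow_succ]
  nlinarith

lemma length_stpW (k : ℕ) (w : List Lt) : w.length ≤ (stpW k w).length := by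
  have h1 : ∀ (l : List Lt) (a : Lt), (a :: l).length ≤ (go id id (lo k) k a l).length := by
    intro l
    induction l with
    | nil => intro a; simp [go]
    | cons b l ih =>
      intro a
      have := ih b
      simp only [go, List.length_cons, List.length_append] at this ⊢
      omega
  cases w with
  | nil => simp
  | cons a l =>
    have := h1 l a
    simp only [stpW, stp, List.length_append]
    omega

lemma length_it_mono (j : ℕ) : ∀ (k : ℕ) (w : List Lt), w.length ≤ (it j k w).length := by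
  induction j with
  | zero => intro k w; exact le_rfl
  | succ j ih =>
    intro k w
    exact (length_stpW k w).trans (ih (k + 1) (stpW k w))

lemma it_add (a : ℕ) : ∀ (b k : ℕ) (w : List Lt), it (a + b) k w = it b (k + a) (it a k w) := by
  induction a with
  | zero => intro b k w; simp [it]
  | succ a ih =>
    intro b k w
    rw [show a + 1 + b = a + b + 1 by ring]
    simp only [it]
    rw [ih b (k + 1) (stpW k w), show k + 1 + a = k + (a + 1) by ring]

lemma length_it_le {a b : ℕ} (h : a ≤ b) (w : List Lt) :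
    (it a 0 w).length ≤ (it b 0 w).length := by
  obtain ⟨c, rfl⟩ := Nat.exists_eq_add_of_le h
  rw [it_add]
  exact length_it_mono c _ _

end Pool.Agent.H81.MPA
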