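import Pool.Agent.H81.MPA.Step
import Pool.Agent.H81.MPA.Cover
import Pool.Agent.H81.MPA.Len

set_option autoImplicit false

/-!
The start of the induction and the paths.
-/

namespace Pool.Agent.H81.MPA

open Matrix Filter Topology Pool.Agent.H81.MonoPath Pool.Agent.H81.MP5

/-- first labels at the start -/
def x0 (i : ℕ) : ℕ := 2 * (i - 1)

/-- second labels at the start -/
def y0 (i : ℕ) : ℕ := 2 * (i - 1) + 1

lemma ro0 (K m : ℕ) (h : 2 * m ≤ K + 1) : RO K m x0 y0 := by
  refine ⟨?_, ?_, ?_, ?_, ?_⟩ <;> intros <;> simp only [x0, y0] at * <;> omega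

section
variable {d : ℕ}

/-- coordinate vectors -/
def ce (F : ℕ) : Fin d → ℝ := fun i => if (i : ℕ) = F then 1 else 0

lemma ce_dot {F : ℕ} (hF : F < d) (u : Fin d → ℝ) : ce F ⬝ᵥ u = u ⟨F, hF⟩ := by
  unfold ce dotProduct
  rw [Finset.sum_eq_single (⟨F, hF⟩ : Fin d)]
  · simp
  · intro b _ hb
    change (if (b : ℕ) = F then (1 : ℝ) else 0) * u b = 0
    rw [if_neg (fun h => hb (Fin.ext h)), zero_mul]
  · intro h
    exact absurd (Finset.mem_univ _) h

lemma ce_apply (F : ℕ) (i : Fin d) : (ce F : Fin d → ℝ) i = if (i : ℕ) = F then 1 else 0 := rfl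

/-- coordinate forms -/
def cf (F : ℕ) : Form d := (-ce F, 0)

lemma ev_cf {F : ℕ} (hF : F < d) (u : Fin d → ℝ) : ev (cf F) u = u ⟨F, hF⟩ := by
  simp only [ev, cf, neg_dotProduct, ce_dot hF]
  ring

lemma D_cf {F : ℕ} (hF : F < d) (u : Fin d → ℝ) : D (cf F) u = u ⟨F, hF⟩ := by
  simp only [D, cf, neg_dotProduct, ce_dot hF]
  ring

end

lemma E_zero (t : ℕ) : E t 0 = true := by
  unfold E
  split_ifs <;> simp

/-! ### Even dimensions -/

section even
variable (m : ℕ)

/-- the record of the origin -/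
def w0 (d : ℕ) : Vx d := ⟨0, Finset.range d, ce⟩

lemma isV_w0 (m : ℕ) : IsV (cf (d := 2 * (m + 1))) (2 * m + 1) (w0 (2 * (m + 1))) := by
  refine ⟨by simp [w0], ?_, ?_, ?_, ?_⟩
  · intro F hF
    have := Finset.mem_range.1 (show F ∈ Finset.range (2 * (m + 1)) from hF)
    omega
  · intro F hF
    have h1 := Finset.mem_range.1 (show F ∈ Finset.range (2 * (m + 1)) from hF)
    rw [ev_cf h1]
    rfl
  · intro F hF hFT
    exfalso
    exact hFT (Finset.mem_range.2 (by omega))
  · intro F hF F' hF'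
    have h1 := Finset.mem_range.1 (show F ∈ Finset.range (2 * (m + 1)) from hF)
    rw [D_cf h1]
    rfl

/-- the functional -/
def c0 (m d : ℕ) : Fin d → ℝ := ce (2 * m) - ce (2 * m + 1)

theorem base_even (m : ℕ) : ∃ (H : ℕ → Form (2 * (m + 1))) (c : Fin (2 * (m + 1)) → ℝ)
    (L : List (Vx (2 * (m + 1)) × Lt)), Inv H c (2 * m + 1) (m + 1) 0 x0 y0 L ∧
      L.map Prod.snd = [(m + 1, true)] := by
  have hx : x0 (m + 1) = 2 * m := by simp [x0]
  have hy : y0 (m + 1) = 2 * m + 1 := by simp [y0]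
  refine ⟨cf, c0 m _, [(w0 _, (m + 1, true))], ⟨ro0 _ _ (by omega), ?_, ?_, ?_, ?_⟩, rfl⟩
  · intro p hp
    have hp' : p = (w0 _, (m + 1, true)) := by simpa using hp
    subst hp'
    refine ⟨isV_w0 m, ⟨le_rfl, ?_, ?_, fun h => absurd h (lt_irrefl _)⟩, fun _ => ?_,
      fun _ => ?_⟩
    · intro i hi hi'
      change i ≤ m + 1 at hi'
      refine Finset.mem_range.2 ?_
      simp only [x0]
      omega
    · intro i hi hi'
      change i ≤ m + 1 at hi'
      refine Finset.mem_range.2 ?_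
      simp only [y0]
      omega
    · change 0 < sg (q 0 (m + 1, true)) * (c0 m _ ⬝ᵥ ce (x0 (m + 1)))
      rw [hx]
      simp only [q, E_zero, beq_self_eq_true, sg, if_true, c0, sub_dotProduct]
      rw [ce_dot (by omega), ce_dot (by omega), ce_apply, ce_apply, if_pos rfl, if_neg (by simp)]
      norm_num
    · change sg (q 0 (m + 1, true)) * (c0 m _ ⬝ᵥ ce (y0 (m + 1))) < 0
      rw [hy]
      simp only [q, E_zero, beq_self_eq_true, sg, if_true, c0, sub_dotProduct]
      rw [ce_dot (by omega), ce_dot (by omega), ce_apply, ce_apply, if_pos rfl, if_neg (by simp)]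
      norm_num
  · exact List.isChain_singleton _
  · intro F hF
    exact ⟨_, isV_w0 m, Finset.mem_range.2 (by omega)⟩
  · exact ⟨_, List.mem_singleton_self _, by simp⟩

end even

/-! ### Odd dimensions -/

section odd

/-- the extra form -/
def ex (m : ℕ) {d : ℕ} : Form d := (ce (2 * m + 2) + (2 : ℝ) • ce (2 * m) - (2 : ℝ) • ce (2 * m + 1), 1)

/-- the forms -/
def Ho (m : ℕ) {d : ℕ} (F : ℕ) : Form d := if F = 2 * m + 3 then ex m else cf F

lemma Ho_lt {m d F : ℕ} (h : F < 2 * m + 3) : (Ho m F : Form d) = cf F := by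
  rw [Ho, if_neg (by omega)]

lemma Ho_top (m d : ℕ) : (Ho m (2 * m + 3) : Form d) = ex m := by
  rw [Ho, if_pos rfl]

/-- directions at the second vertex -/
def u1 (m : ℕ) {d : ℕ} (F : ℕ) : Fin d → ℝ :=
  if F = 2 * m + 3 then - ce (2 * m + 2)
  else if F = 2 * m then ce (2 * m) - (2 : ℝ) • ce (2 * m + 2)
  else if F = 2 * m + 1 then ce (2 * m + 1) + (2 : ℝ) • ce (2 * m + 2)
  else ce F

/-- the record of the second vertex -/
def w1 (m : ℕ) : Vx (2 * (m + 1) + 1) :=
  ⟨ce (2 * m + 2), (Finset.range (2 * m + 4)).erase (2 * m + 2), u1 m⟩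

lemma ev_ex (m : ℕ) (u : Fin (2 * (m + 1) + 1) → ℝ) : ev (ex m) u =
    1 - (u ⟨2 * m + 2, by omega⟩ + 2 * u ⟨2 * m, by omega⟩ - 2 * u ⟨2 * m + 1, by omega⟩) := by
  simp only [ev, ex, sub_dotProduct, add_dotProduct, smul_dotProduct, smul_eq_mul]
  rw [ce_dot (by omega), ce_dot (by omega), ce_dot (by omega)]

lemma D_ex (m : ℕ) (u : Fin (2 * (m + 1) + 1) → ℝ) : D (ex m) u =
    - (u ⟨2 * m + 2, by omega⟩ + 2 * u ⟨2 * m, by omega⟩ - 2 * u ⟨2 * m + 1, by omega⟩) := by
  simp only [D, ex, sub_dotProduct, add_dotProduct, smul_dotProduct, smul_eq_mul]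
  rw [ce_dot (by omega), ce_dot (by omega), ce_dot (by omega)]

lemma isV_o0 (m : ℕ) : IsV (Ho m) (2 * m + 3) (w0 (2 * (m + 1) + 1)) := by
  refine ⟨by simp [w0], ?_, ?_, ?_, ?_⟩
  · intro F hF
    have := Finset.mem_range.1 (show F ∈ Finset.range (2 * (m + 1) + 1) from hF)
    omega
  · intro F hF
    have h1 := Finset.mem_range.1 (show F ∈ Finset.range (2 * (m + 1) + 1) from hF)
    rw [Ho_lt (by omega), ev_cf h1]
    rfl
  · intro F hF hFT
    have h1 : ¬ F < 2 * (m + 1) + 1 := fun h => hFT (Finset.mem_range.2 h)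
    have h2 : F = 2 * m + 3 := by omega
    subst h2
    rw [Ho_top, ev_ex]
    change 0 < 1 - ((0 : ℝ) + 2 * 0 - 2 * 0)
    norm_num
  · intro F hF F' hF'
    have h1 := Finset.mem_range.1 (show F ∈ Finset.range (2 * (m + 1) + 1) from hF)
    rw [Ho_lt (by omega), D_cf h1]
    rfl

lemma mem_w1 {m F : ℕ} (h : F ∈ (w1 m).T) : F < 2 * m + 4 ∧ F ≠ 2 * m + 2 := by
  have h1 : F ∈ (Finset.range (2 * m + 4)).erase (2 * m + 2) := h
  rw [Finset.mem_erase, Finset.mem_range] at h1
  exact ⟨h1.2, h1.1⟩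

lemma w1_mem {m F : ℕ} (h : F < 2 * m + 4) (h' : F ≠ 2 * m + 2) : F ∈ (w1 m).T := by
  change F ∈ (Finset.range (2 * m + 4)).erase (2 * m + 2)
  rw [Finset.mem_erase, Finset.mem_range]
  exact ⟨h', h⟩

lemma isV_o1 (m : ℕ) : IsV (Ho m) (2 * m + 3) (w1 m) := by
  refine ⟨?_, ?_, ?_, ?_, ?_⟩
  · change ((Finset.range (2 * m + 4)).erase (2 * m + 2)).card = 2 * (m + 1) + 1
    rw [Finset.card_erase_of_mem (Finset.mem_range.2 (by omega)), Finset.card_range]
    omega
  · intro F hF
    have := mem_w1 hF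
    omega
  · intro F hF
    obtain ⟨h1, h2⟩ := mem_w1 hF
    change ev (Ho m F) (ce (2 * m + 2)) = 0
    by_cases h3 : F = 2 * m + 3
    · subst h3
      rw [Ho_top, ev_ex, ce_apply, ce_apply, ce_apply, if_pos rfl, if_neg (by simp),
        if_neg (by simp)]
      norm_num
    · rw [Ho_lt (by omega), ev_cf (by omega), ce_apply, if_neg (by simpa using h2)]
  · intro F hF hFT
    have h1 : F = 2 * m + 2 := by
      by_contra h0
      exact hFT (w1_mem (by omega) h0)
    subst h1
    change 0 < ev (Ho m (2 * m + 2)) (ce (2 * m + 2))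
    rw [Ho_lt (by omega), ev_cf (by omega), ce_apply, if_pos rfl]
    norm_num
  · intro F hF F' hF'
    obtain ⟨h1, h2⟩ := mem_w1 hF
    obtain ⟨h1', h2'⟩ := mem_w1 hF'
    change D (Ho m F) (u1 m F') = _
    by_cases h3 : F = 2 * m + 3
    · subst h3
      rw [Ho_top, D_ex]
      unfold u1
      by_cases a1 : F' = 2 * m + 3
      · rw [if_pos a1, if_pos a1.symm]
        simp [ce_apply]
      · rw [if_neg a1, if_neg (show ¬ (2 * m + 3 = F') from fun h => a1 h.symm)]
        by_cases a2 : F' = 2 * m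
        · rw [if_pos a2]
          simp [ce_apply]
        · rw [if_neg a2]
          by_cases a3 : F' = 2 * m + 1
          · rw [if_pos a3]
            simp [ce_apply]
          · rw [if_neg a3]
            simp only [ce_apply]
            rw [if_neg (by omega), if_neg (by omega), if_neg (by omega)]
            norm_num
    · rw [Ho_lt (by omega), D_cf (by omega)]
      unfold u1
      by_cases a1 : F' = 2 * m + 3
      · rw [if_pos a1, if_neg (by omega)]
        simp only [Pi.neg_apply, ce_apply]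
        rw [if_neg (by omega)]
        norm_num
      · rw [if_neg a1]
        by_cases a2 : F' = 2 * m
        · rw [if_pos a2]
          simp only [Pi.sub_apply, Pi.smul_apply, ce_apply, smul_eq_mul]
          rw [if_neg (show ¬ F = 2 * m + 2 from h2), a2]
          norm_num
        · rw [if_neg a2]
          by_cases a3 : F' = 2 * m + 1
          · rw [if_pos a3]
            simp only [Pi.add_apply, Pi.smul_apply, ce_apply, smul_eq_mul]
            rw [if_neg (show ¬ F = 2 * m + 2 from h2), a3]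
            norm_num
          · rw [if_neg a3, ce_apply]

/-- the functional -/
def c1 (m d : ℕ) : Fin d → ℝ := ce (2 * m) - ce (2 * m + 1) + ce (2 * m + 2)

lemma c1_dot (m : ℕ) (u : Fin (2 * (m + 1) + 1) → ℝ) : c1 m _ ⬝ᵥ u =
    u ⟨2 * m, by omega⟩ - u ⟨2 * m + 1, by omega⟩ + u ⟨2 * m + 2, by omega⟩ := by
  simp only [c1, sub_dotProduct, add_dotProduct]
  rw [ce_dot (by omega), ce_dot (by omega), ce_dot (by omega)]

theorem base_odd (m : ℕ) : ∃ (H : ℕ → Form (2 * (m + 1) + 1)) (c : Fin (2 * (m + 1) + 1) → ℝ)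
    (L : List (Vx (2 * (m + 1) + 1) × Lt)), Inv H c (2 * m + 3) (m + 1) 0 x0 y0 L ∧
      L.map Prod.snd = [(m + 1, true), (m + 1, false)] := by
  have hx : x0 (m + 1) = 2 * m := by simp [x0]
  have hy : y0 (m + 1) = 2 * m + 1 := by simp [y0]
  refine ⟨Ho m, c1 m _, [(w0 _, (m + 1, true)), (w1 m, (m + 1, false))],
    ⟨ro0 _ _ (by omega), ?_, ?_, ?_, ?_⟩, rfl⟩
  · intro p hp
    simp only [List.mem_cons, List.not_mem_nil, or_false] at hp
    rcases hp with rfl | rfl
    · refine ⟨isV_o0 m, ⟨le_rfl, ?_, ?_, fun h => absurd h (lt_irrefl _)⟩, fun _ => ?_,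
        fun _ => ?_⟩
      · intro i hi hi'
        change i ≤ m + 1 at hi'
        refine Finset.mem_range.2 ?_
        simp only [x0]
        omega
      · intro i hi hi'
        change i ≤ m + 1 at hi'
        refine Finset.mem_range.2 ?_
        simp only [y0]
        omega
      · change 0 < sg (q 0 (m + 1, true)) * (c1 m _ ⬝ᵥ ce (x0 (m + 1)))
        rw [hx, c1_dot]
        simp [q, E_zero, sg, ce_apply]
      · change sg (q 0 (m + 1, true)) * (c1 m _ ⬝ᵥ ce (y0 (m + 1))) < 0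
        rw [hy, c1_dot]
        simp [q, E_zero, sg, ce_apply]
    · refine ⟨isV_o1 m, ⟨le_rfl, ?_, ?_, fun h => absurd h (lt_irrefl _)⟩, fun _ => ?_,
        fun _ => ?_⟩
      · intro i hi hi'
        change i ≤ m + 1 at hi'
        refine w1_mem ?_ ?_ <;> simp only [x0] <;> omega
      · intro i hi hi'
        change i ≤ m + 1 at hi'
        refine w1_mem ?_ ?_ <;> simp only [y0] <;> omega
      · change 0 < sg (q 0 (m + 1, false)) * (c1 m _ ⬝ᵥ u1 m (x0 (m + 1)))
        rw [hx, c1_dot, u1, if_neg (by omega), if_pos rfl]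
        simp [q, E_zero, sg, ce_apply]
      · change sg (q 0 (m + 1, false)) * (c1 m _ ⬝ᵥ u1 m (y0 (m + 1))) < 0
        rw [hy, c1_dot, u1, if_neg (by omega), if_neg (by omega), if_pos rfl]
        simp [q, E_zero, sg, ce_apply]
  · simp only [List.isChain_cons_cons, List.isChain_singleton, and_true]
    refine ⟨?_, by simp, by simp, 2 * m + 2, 2 * m + 3, ?_, ?_, fun h => ?_, fun h => ?_⟩
    · change c1 m _ ⬝ᵥ (0 : Fin (2 * (m + 1) + 1) → ℝ) < c1 m _ ⬝ᵥ ce (2 * m + 2)
      rw [dotProduct_zero, c1_dot]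
      simp [ce_apply]
    · change Finset.range (2 * (m + 1) + 1) \ (Finset.range (2 * m + 4)).erase (2 * m + 2) = _
      ext F
      simp only [Finset.mem_sdiff, Finset.mem_range, Finset.mem_erase, Finset.mem_singleton]
      omega
    · change (Finset.range (2 * m + 4)).erase (2 * m + 2) \ Finset.range (2 * (m + 1) + 1) = _
      ext F
      simp only [Finset.mem_sdiff, Finset.mem_range, Finset.mem_erase, Finset.mem_singleton]
      omega
    · exfalso
      change m + 1 = m + 1 + 1 at h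
      omega
    · exfalso
      change m + 1 = m + 1 + 1 at h
      omega
  · intro F hF
    by_cases h : F = 2 * m + 3
    · exact ⟨_, isV_o1 m, w1_mem (by omega) (by omega)⟩
    · exact ⟨_, isV_o0 m, Finset.mem_range.2 (by omega)⟩
  · exact ⟨_, List.mem_cons_self, by simp⟩

end odd

/-! ### The paths -/

variable {d : ℕ}

lemma it_succ (j : ℕ) (w : List Lt) : it (j + 1) 0 w = stpW j (it j 0 w) := by
  rw [it_add j 1 0 w, zero_add]
  rfl

/-- all the polyhedra -/
theorem inv_all {K m : ℕ} {H : ℕ → Form d} {c : Fin d → ℝ} {L : List (Vx d × Lt)}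
    (hI : Inv H c K m 0 x0 y0 L) (j : ℕ) :
    ∃ (H' : ℕ → Form d) (x y : ℕ → ℕ) (L' : List (Vx d × Lt)), Inv H' c (K + j) m j x y L' ∧
      L'.map Prod.snd = it j 0 (L.map Prod.snd) := by
  induction j with
  | zero => exact ⟨H, x0, y0, L, hI, rfl⟩
  | succ j ih =>
    obtain ⟨H', x, y, L', hI', hL'⟩ := ih
    obtain ⟨h, hI''⟩ := hI'.next
    refine ⟨_, _, _, _, hI'', ?_⟩
    rw [it_succ, ← hL']
    exact map_stp (fun a => Oc_lt _ _ _ a) (fun a => rfl) L'

theorem path_all {K m : ℕ} {H : ℕ → Form d} {c : Fin d → ℝ} {L : List (Vx d × Lt)}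
    (hI : Inv H c K m 0 x0 y0 L) (j : ℕ) :
    HasMonotonePath d (K + j + 1) (it j 0 (L.map Prod.snd)).length := by
  obtain ⟨H', x, y, L', hI', hL'⟩ := inv_all hI j
  rw [← hL', List.length_map]
  have h1 := hasMonotonePath_of_list' H' (K + j) c (L'.map Prod.fst) ?_ ?_ ?_
  · rw [List.length_map] at h1
    exact h1
  · intro p hp
    obtain ⟨r, hr, rfl⟩ := List.mem_map.1 hp
    exact (hI'.ok r hr).isV
  · rw [List.isChain_map]
    refine hI'.chain.imp (fun p r h => ?_)
    obtain ⟨h1, -, -, F, F', h2, h3, -, -⟩ := h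
    exact ⟨h1, F, F', h2, h3⟩
  · exact hI'.cover

/-- even dimensions -/
theorem path_even (m j : ℕ) :
    HasMonotonePath (2 * (m + 1)) (2 * m + 2 + j) (it j 0 [(m + 1, true)]).length := by
  obtain ⟨H, c, L, hI, hL⟩ := base_even m
  have h := path_all hI j
  rw [hL] at h
  rw [show 2 * m + 2 + j = 2 * m + 1 + j + 1 by ring]
  exact h

/-- odd dimensions -/
theorem path_odd (m j : ℕ) :
    HasMonotonePath (2 * (m + 1) + 1) (2 * m + 4 + j)
      (it j 0 [(m + 1, true), (m + 1, false)]).length := by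
  obtain ⟨H, c, L, hI, hL⟩ := base_odd m
  have h := path_all hI j
  rw [hL] at h
  rw [show 2 * m + 4 + j = 2 * m + 3 + j + 1 by ring]
  exact h

end Pool.Agent.H81.MPA
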