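import Pool.Agent.H81.MPA.Word

set_option autoImplicit false

/-!
Counting letters: lower bounds for the length of iterated words.
-/

namespace Pool.Agent.H81.MPA

/-- sum over consecutive pairs -/
def ps (f : Lt → Lt → ℕ) : List Lt → ℕ
  | [] => 0
  | [_] => 0
  | a :: b :: l => f a b + ps f (b :: l)

/-- number of pieces of an edge after `j` steps from time `k` -/
def ne : ℕ → ℕ → Lt → Lt → ℕ
  | 0, _, _, _ => 1
  | j + 1, k, a, b => ps (ne j (k + 1)) (a :: (gapW k a b ++ [b]))

/-- lower bound for the number of edges grown on the left of the first letter -/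
def nl : ℕ → ℕ → Lt → ℕ
  | 0, _, _ => 0
  | j + 1, k, a => if endL k a then ne j (k + 1) (lo k a) a else nl j (k + 1) a

/-- lower bound for the number of edges grown on the right of the last letter -/
def nr : ℕ → ℕ → Lt → ℕ
  | 0, _, _ => 0
  | j + 1, k, a => if endR k a then ne j (k + 1) a (lo k a) else nr j (k + 1) a

/-- edges of a word and its right end -/
def Rl (j k : ℕ) : List Lt → ℕ
  | [] => 0
  | [a] => nr j k a
  | a :: b :: l => ne j k a b + Rl j k (b :: l)

/-- total count -/
def Tot (j k : ℕ) : List Lt → ℕ
  | [] => 0
  | a :: l => 1 + nl j k a + Rl j k (a :: l)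

/-- iterated steps -/
def it : ℕ → ℕ → List Lt → List Lt
  | 0, _, w => w
  | j + 1, k, w => it j (k + 1) (stpW k w)

lemma go_cons (k : ℕ) (a : Lt) (l : List Lt) : ∃ X, go id id (lo k) k a l = a :: X := by
  cases l with
  | nil => exact ⟨_, rfl⟩
  | cons c l => exact ⟨_, rfl⟩

lemma Rl_go (j k : ℕ) : ∀ (l : List Lt) (a : Lt),
    Rl (j + 1) k (a :: l) ≤ Rl j (k + 1) (go id id (lo k) k a l)
  | [], a => by
    simp only [go, id, Rl, nr]
    split_ifs with h
    · simp only [Rl]
      exact Nat.le_add_right _ _
    · simp only [Rl]
      exact le_rfl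
  | b :: l, a => by
    have ih := Rl_go j k l b
    obtain ⟨X, hX⟩ := go_cons k b l
    rw [hX] at ih
    simp only [go, id]
    rw [hX]
    simp only [Rl, ne]
    refine (Nat.add_le_add_left ih _).trans ?_
    change ps (ne j (k + 1)) (a :: ((gap id (lo k) k a b) ++ [b])) + _ ≤ _
    simp only [gap, id]
    split_ifs <;> simp [ps, Rl] <;> omega

lemma Tot_stp (j k : ℕ) (w : List Lt) : Tot (j + 1) k w ≤ Tot j (k + 1) (stpW k w) := by
  cases w with
  | nil => simp [Tot, stp]
  | cons a l =>
    have h1 := Rl_go j k l a
    obtain ⟨X, hX⟩ := go_cons k a l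
    simp only [stpW, stp, id]
    rw [hX] at h1 ⊢
    split_ifs with h
    · simp only [List.singleton_append, Tot, Rl, nl]
      rw [if_pos h]
      omega
    · simp only [List.nil_append, Tot, nl]
      rw [if_neg h]
      omega

lemma Tot_zero (k : ℕ) (w : List Lt) : Tot 0 k w ≤ w.length := by
  cases w with
  | nil => simp [Tot]
  | cons a l =>
    have : ∀ (l : List Lt) (a : Lt), Rl 0 k (a :: l) ≤ l.length := by
      intro l
      induction l with
      | nil => intro a; simp [Rl, nr]
      | cons b l ih => intro a; have := ih b; simp [Rl, ne]; omega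
    have := this l a
    simp only [Tot, nl, List.length_cons]
    omega

/-- the count is a lower bound for the length -/
theorem Tot_le (j : ℕ) : ∀ (k : ℕ) (w : List Lt), Tot j k w ≤ (it j k w).length := by
  induction j with
  | zero => exact fun k w => Tot_zero k w
  | succ j ih =>
    intro k w
    exact (Tot_stp j k w).trans (ih (k + 1) (stpW k w))

lemma ne_pos (j : ℕ) : ∀ (k : ℕ) (a b : Lt), 1 ≤ ne j k a b := by
  induction j with
  | zero => intro k a b; exact le_rfl
  | succ j ih =>
    intro k a b
    simp only [ne]
    cases h : gapW k a b with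
    | nil =>
      simp only [List.nil_append, ps]
      have := ih (k + 1) a b
      omega
    | cons c l =>
      simp only [List.cons_append, ps]
      have := ih (k + 1) a c
      omega

/-- lower bound for the growth of an edge between depths `t - 1` and `t` -/
def lb : ℕ → ℕ → ℕ → Bool → Bool → ℕ
  | 0, _, _, _, _ => 1
  | j + 1, k, t, β, γ =>
    if (β != E t k) = true then lb j (k + 1) t β γ
    else if t ≤ 1 then lb j (k + 1) t β (E (t - 1) k) + 1
    else if (γ == E (t - 1) k) = true then lb j (k + 1) t β (E (t - 1) k)
    else lb j (k + 1) t β (E (t - 1) k) + lb j (k + 1) (t - 1) (E (t - 1) k) (E (t - 2) k)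
      + lb j (k + 1) (t - 1) (E (t - 1) k) (!E (t - 2) k)

lemma ne_lb (j : ℕ) : ∀ (k s : ℕ) (ra rb : Bool),
    lb j k (s + 1) (!rb) (!ra) ≤ ne j k (s, ra) (s + 1, rb) ∧
    lb j k (s + 1) ra rb ≤ ne j k (s + 1, ra) (s, rb) := by
  induction j with
  | zero => intro k s ra rb; exact ⟨le_rfl, le_rfl⟩
  | succ j ih =>
    intro k s ra rb
    cases s with
    | zero =>
      have hp := ne_pos j (k + 1)
      have u := fun ra rb => (ih (k + 1) 0 ra rb).1
      have v := fun ra rb => (ih (k + 1) 0 ra rb).2
      have u1 := u true true
      have u2 := u true false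
      have u3 := u false true
      have u4 := u false false
      have v1 := v true true
      have v2 := v true false
      have v3 := v false true
      have v4 := v false false
      have p1 := hp (0, true) (0, true)
      have p2 := hp (0, true) (0, false)
      have p3 := hp (0, false) (0, true)
      have p4 := hp (0, false) (0, false)
      simp only [zero_add, Bool.not_true, Bool.not_false] at u1 u2 u3 u4 v1 v2 v3 v4
      cases h1 : E 1 k <;> cases h0 : E 0 k <;> cases ra <;> cases rb <;>
        simp [lb, ne, gapW, gap, useR, useL, lo, q, ps, h1, h0] <;> omega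
    | succ s =>
      have hp := ne_pos j (k + 1)
      have u1 := (ih (k + 1) (s + 1) true true).1
      have u2 := (ih (k + 1) (s + 1) true false).1
      have u3 := (ih (k + 1) (s + 1) false true).1
      have u4 := (ih (k + 1) (s + 1) false false).1
      have v1 := (ih (k + 1) (s + 1) true true).2
      have v2 := (ih (k + 1) (s + 1) true false).2
      have v3 := (ih (k + 1) (s + 1) false true).2
      have v4 := (ih (k + 1) (s + 1) false false).2
      have w1 := (ih (k + 1) s true true).1
      have w2 := (ih (k + 1) s true false).1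
      have w3 := (ih (k + 1) s false true).1
      have w4 := (ih (k + 1) s false false).1
      have z1 := (ih (k + 1) s true true).2
      have z2 := (ih (k + 1) s true false).2
      have z3 := (ih (k + 1) s false true).2
      have z4 := (ih (k + 1) s false false).2
      simp only [Bool.not_true, Bool.not_false] at u1 u2 u3 u4 w1 w2 w3 w4
      cases h1 : E (s + 1 + 1) k <;> cases h0 : E (s + 1) k <;> cases h2 : E s k <;>
        cases ra <;> cases rb <;>
        simp [lb, ne, gapW, gap, useR, useL, lo, q, ps, h1, h0, h2] <;> omega

end Pool.Agent.H81.MPA
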