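import Pool.Agent.H81.MP5.Core

set_option autoImplicit false

/-!
The new facet and its values near the vertices: numerical part of the step.
-/

namespace Pool.Agent.H81.MPA

open Matrix Filter Topology Pool.Agent.H81.MonoPath Pool.Agent.H81.MP5

variable {d : ℕ}

/-- nested forms -/
noncomputable def W (H : ℕ → Form d) (x y : ℕ → ℕ) (δ : ℝ) : ℕ → ℕ → Form d
  | 0, _ => one
  | n + 1, j => (H (x (j + 1)) + H (y (j + 1))) - δ • W H x y δ n (j + 1)

/-- distinct labels -/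
structure RO (K m : ℕ) (x y : ℕ → ℕ) : Prop where
  lx : ∀ i, 1 ≤ i → i ≤ m → x i ≤ K
  ly : ∀ i, 1 ≤ i → i ≤ m → y i ≤ K
  xx : ∀ i j, 1 ≤ i → i ≤ m → 1 ≤ j → j ≤ m → x i = x j → i = j
  yy : ∀ i j, 1 ≤ i → i ≤ m → 1 ≤ j → j ≤ m → y i = y j → i = j
  xy : ∀ i j, 1 ≤ i → i ≤ m → 1 ≤ j → j ≤ m → x i ≠ y j

/-- a vertex of depth `t` -/
structure Dep (m : ℕ) (x y : ℕ → ℕ) (T : Finset ℕ) (t : ℕ) : Prop where
  le : t ≤ m
  mx : ∀ i, 1 ≤ i → i ≤ t → x i ∈ T
  my : ∀ i, 1 ≤ i → i ≤ t → y i ∈ T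
  out : t < m → x (t + 1) ∉ T ∨ y (t + 1) ∉ T

variable {H : ℕ → Form d} {x y : ℕ → ℕ} {K m t : ℕ} {v : Vx d}

lemma ev_W_succ (δ : ℝ) (n j : ℕ) (p : Fin d → ℝ) : ev (W H x y δ (n + 1) j) p =
    ev (H (x (j + 1))) p + ev (H (y (j + 1))) p - δ * ev (W H x y δ n (j + 1)) p := by
  simp only [W, ev_fsub, ev_fadd, ev_fsmul]

lemma D_W_succ (δ : ℝ) (n j : ℕ) (p : Fin d → ℝ) : D (W H x y δ (n + 1) j) p =
    D (H (x (j + 1))) p + D (H (y (j + 1))) p - δ * D (W H x y δ n (j + 1)) p := by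
  simp only [W, D_fsub, D_fadd, D_fsmul]

lemma ev_W_down (δ : ℝ) (p : Fin d → ℝ) (s : ℕ) : ∀ n j : ℕ,
    (∀ i, j < i → i ≤ j + s → ev (H (x i)) p = 0 ∧ ev (H (y i)) p = 0) →
    ev (W H x y δ (n + s) j) p = (-δ) ^ s * ev (W H x y δ n (j + s)) p := by
  induction s with
  | zero => intro n j _; simp
  | succ s ih =>
    intro n j h
    have h1 := h (j + 1) (by omega) (by omega)
    have h2 := ih n (j + 1) (fun i hi hi' => h i (by omega) (by omega))
    rw [show n + (s + 1) = n + s + 1 by ring, ev_W_succ, h1.1, h1.2, h2,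
      show j + 1 + s = j + (s + 1) by ring, pow_succ]
    ring

lemma D_W_down (δ : ℝ) (p : Fin d → ℝ) (s : ℕ) : ∀ n j : ℕ,
    (∀ i, j < i → i ≤ j + s → D (H (x i)) p = 0 ∧ D (H (y i)) p = 0) →
    D (W H x y δ (n + s) j) p = (-δ) ^ s * D (W H x y δ n (j + s)) p := by
  induction s with
  | zero => intro n j _; simp
  | succ s ih =>
    intro n j h
    have h1 := h (j + 1) (by omega) (by omega)
    have h2 := ih n (j + 1) (fun i hi hi' => h i (by omega) (by omega))
    rw [show n + (s + 1) = n + s + 1 by ring, D_W_succ, h1.1, h1.2, h2,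
      show j + 1 + s = j + (s + 1) by ring, pow_succ]
    ring

lemma cont_ev_W (p : Fin d → ℝ) (n : ℕ) : ∀ j, Continuous (fun δ : ℝ => ev (W H x y δ n j) p) := by
  induction n with
  | zero => intro j; simp only [W]; exact continuous_const
  | succ n ih =>
    intro j
    simp only [ev_W_succ]
    exact continuous_const.sub (continuous_id.mul (ih (j + 1)))

lemma cont_D_W (p : Fin d → ℝ) (n : ℕ) : ∀ j, Continuous (fun δ : ℝ => D (W H x y δ n j) p) := by
  induction n with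
  | zero => intro j; simp only [W]; exact continuous_const
  | succ n ih =>
    intro j
    simp only [D_W_succ]
    exact continuous_const.sub (continuous_id.mul (ih (j + 1)))

/-- the factor `1 - δ D` at level `i` -/
noncomputable def kf (H : ℕ → Form d) (x y : ℕ → ℕ) (m : ℕ) (v : Vx d) (i l : ℕ) (δ : ℝ) : ℝ :=
  1 - δ * D (W H x y δ (m - i) i) (v.u l)

lemma kf_tendsto (i l : ℕ) : Tendsto (kf H x y m v i l) (𝓝[>] 0) (𝓝 1) := by
  have h1 : Continuous (kf H x y m v i l) := by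
    unfold kf
    exact continuous_const.sub (continuous_id.mul (cont_D_W (v.u l) (m - i) i))
  have h2 : kf H x y m v i l 0 = 1 := by simp [kf]
  have h3 := h1.tendsto 0
  rw [h2] at h3
  exact h3.mono_left nhdsWithin_le_nhds

/-- the new form at a vertex of depth `t` -/
lemma ev_dep (hv : IsV H K v) (hd : Dep m x y v.T t) (δ : ℝ) :
    ev (W H x y δ m 0) v.x = (-δ) ^ t * ev (W H x y δ (m - t) t) v.x := by
  have h := ev_W_down (H := H) (x := x) (y := y) δ v.x t (m - t) 0 (fun i hi hi' =>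
    ⟨hv.tight _ (hd.mx i (by omega) (by omega)), hv.tight _ (hd.my i (by omega) (by omega))⟩)
  have hle := hd.le
  rw [show m - t + t = m by omega, zero_add] at h
  exact h

/-- the derivative of the new form along a direction of level `i ≤ t` -/
lemma D_dep (hv : IsV H K v) (hr : RO K m x y) (hd : Dep m x y v.T t) {i l : ℕ} (hi : 1 ≤ i)
    (hit : i ≤ t) (hl : l = x i ∨ l = y i) (δ : ℝ) :
    D (W H x y δ m 0) (v.u l) = (-δ) ^ (i - 1) * kf H x y m v i l δ := by
  have hle := hd.le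
  have hlT : l ∈ v.T := by
    rcases hl with rfl | rfl
    · exact hd.mx i hi hit
    · exact hd.my i hi hit
  have h := D_W_down (H := H) (x := x) (y := y) δ (v.u l) (i - 1) (m - i + 1) 0
    (fun j hj hj' => by
      constructor
      · rw [hv.dual _ (hd.mx j (by omega) (by omega)) _ hlT, if_neg]
        rcases hl with rfl | rfl
        · intro h0
          have := hr.xx j i (by omega) (by omega) hi (by omega) h0
          omega
        · exact hr.xy j i (by omega) (by omega) hi (by omega)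
      · rw [hv.dual _ (hd.my j (by omega) (by omega)) _ hlT, if_neg]
        rcases hl with rfl | rfl
        · exact (hr.xy i j hi (by omega) (by omega) (by omega)).symm
        · intro h0
          have := hr.yy j i (by omega) (by omega) hi (by omega) h0
          omega)
  rw [show m - i + 1 + (i - 1) = m by omega, zero_add] at h
  rw [h, D_W_succ, show i - 1 + 1 = i by omega]
  congr 1
  have hxy := hr.xy i i hi (by omega) hi (by omega)
  have e1 : D (H (x i)) (v.u l) + D (H (y i)) (v.u l) = 1 := by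
    rw [hv.dual _ (hd.mx i hi hit) _ hlT, hv.dual _ (hd.my i hi hit) _ hlT]
    rcases hl with rfl | rfl
    · rw [if_pos rfl, if_neg hxy.symm, add_zero]
    · rw [if_pos rfl, if_neg hxy, zero_add]
  rw [e1, kf]

/-- the limit of the nested form at a vertex is positive -/
lemma ev_lim (hv : IsV H K v) (hr : RO K m x y) (hd : Dep m x y v.T t) :
    ∃ A : ℝ, 0 < A ∧
      Tendsto (fun δ : ℝ => ev (W H x y δ (m - t) t) v.x) (𝓝[>] 0) (𝓝 A) := by
  have hc := (cont_ev_W (H := H) (x := x) (y := y) v.x (m - t) t).tendsto 0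
  refine ⟨_, ?_, hc.mono_left nhdsWithin_le_nhds⟩
  rcases Nat.lt_or_ge t m with h | h
  · obtain ⟨n, hn⟩ : ∃ n, m - t = n + 1 := ⟨m - t - 1, by omega⟩
    rw [hn, ev_W_succ, zero_mul, sub_zero]
    have nn : ∀ F, F ≤ K → 0 ≤ ev (H F) v.x := by
      intro F hF
      by_cases hT : F ∈ v.T
      · exact (hv.tight F hT).ge
      · exact (hv.pos F hF hT).le
    have a1 := nn _ (hr.lx (t + 1) (by omega) (by omega))
    have a2 := nn _ (hr.ly (t + 1) (by omega) (by omega))
    rcases hd.out h with h1 | h1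
    · have := hv.pos _ (hr.lx (t + 1) (by omega) (by omega)) h1
      linarith
    · have := hv.pos _ (hr.ly (t + 1) (by omega) (by omega)) h1
      linarith
  · have : m - t = 0 := by omega
    rw [this]
    simp only [W]
    rw [ev_one]
    norm_num

lemma tend_id : Tendsto (fun δ : ℝ => δ) (𝓝[>] 0) (𝓝 0) :=
  tendsto_id.mono_left nhdsWithin_le_nhds

/-- the displacement along a direction of level `t` -/
lemma tau_eq (hv : IsV H K v) (hr : RO K m x y) (hd : Dep m x y v.T t) (ht : 1 ≤ t) {l : ℕ}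
    (hl : l = x t ∨ l = y t) {δ : ℝ} (hδ : 0 < δ) :
    -(ev (W H x y δ m 0) v.x) / D (W H x y δ m 0) (v.u l) =
      δ * ev (W H x y δ (m - t) t) v.x / kf H x y m v t l δ := by
  rw [ev_dep hv hd, D_dep hv hr hd ht le_rfl hl]
  obtain ⟨s, rfl⟩ := Nat.exists_eq_add_of_le ht
  rw [Nat.add_sub_cancel_left, show 1 + s = s + 1 by ring]
  have h1 : ((-δ) ^ s : ℝ) ≠ 0 := pow_ne_zero _ (by linarith)
  rw [pow_succ]
  rw [show -((-δ) ^ s * -δ * ev (W H x y δ (m - (s + 1)) (s + 1)) v.x) =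
    (-δ) ^ s * (δ * ev (W H x y δ (m - (s + 1)) (s + 1)) v.x) by ring,
    mul_div_mul_left _ _ h1]

lemma tau_tendsto (hv : IsV H K v) (hr : RO K m x y) (hd : Dep m x y v.T t) (ht : 1 ≤ t) {l : ℕ}
    (hl : l = x t ∨ l = y t) :
    Tendsto (fun δ : ℝ => -(ev (W H x y δ m 0) v.x) / D (W H x y δ m 0) (v.u l)) (𝓝[>] 0)
      (𝓝 0) := by
  obtain ⟨A, -, hA⟩ := ev_lim hv hr hd
  have h1 : Tendsto (fun δ : ℝ => δ * ev (W H x y δ (m - t) t) v.x / kf H x y m v t l δ)
      (𝓝[>] 0) (𝓝 (0 * A / 1)) :=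
    (tend_id.mul hA).div (kf_tendsto t l) one_ne_zero
  rw [zero_mul, zero_div] at h1
  refine h1.congr' ?_
  filter_upwards [self_mem_nhdsWithin] with δ hδ
  exact (tau_eq hv hr hd ht hl hδ).symm

/-- the displacement is positive and the pivot stays strictly inside the other facets -/
lemma near_eventually (hv : IsV H K v) (hr : RO K m x y) (hd : Dep m x y v.T t) (ht : 1 ≤ t)
    {l : ℕ} (hl : l = x t ∨ l = y t) :
    ∀ᶠ δ in 𝓝[>] (0 : ℝ), 0 < -(ev (W H x y δ m 0) v.x) / D (W H x y δ m 0) (v.u l) ∧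
      ∀ F, F ≤ K → F ∉ v.T → 0 < ev (H F)
        (v.x + (-(ev (W H x y δ m 0) v.x) / D (W H x y δ m 0) (v.u l)) • v.u l) := by
  obtain ⟨A, hA0, hA⟩ := ev_lim hv hr hd
  have h1 : ∀ᶠ δ in 𝓝[>] (0 : ℝ), 0 < -(ev (W H x y δ m 0) v.x) / D (W H x y δ m 0) (v.u l) := by
    filter_upwards [hA.eventually (lt_mem_nhds hA0),
      (kf_tendsto (H := H) (x := x) (y := y) (m := m) (v := v) t l).eventually
        (lt_mem_nhds one_pos), self_mem_nhdsWithin] with δ e1 e2 e3
    rw [tau_eq hv hr hd ht hl e3]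
    exact div_pos (mul_pos e3 e1) e2
  have hτ := tau_tendsto hv hr hd ht hl
  have h2 : ∀ᶠ δ in 𝓝[>] (0 : ℝ), ∀ F ∈ Finset.range (K + 1), F ∉ v.T → 0 < ev (H F)
        (v.x + (-(ev (W H x y δ m 0) v.x) / D (W H x y δ m 0) (v.u l)) • v.u l) := by
    rw [Finset.eventually_all]
    intro F hF
    by_cases hT : F ∈ v.T
    · exact Eventually.of_forall (fun ε h0 => absurd hT h0)
    · have h3 : 0 < ev (H F) v.x := hv.pos F (by simpa [Nat.lt_succ_iff] using hF) hT
      have h4 : Tendsto (fun δ : ℝ => ev (H F) v.x +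
          (-(ev (W H x y δ m 0) v.x) / D (W H x y δ m 0) (v.u l)) * D (H F) (v.u l)) (𝓝[>] 0)
          (𝓝 (ev (H F) v.x + 0 * D (H F) (v.u l))) :=
        (hτ.mul_const (D (H F) (v.u l))).const_add (ev (H F) v.x)
      rw [zero_mul, add_zero] at h4
      filter_upwards [h4.eventually (lt_mem_nhds h3)] with δ hδ _
      rw [ev_add_smul]
      exact hδ
  filter_upwards [h1, h2] with δ e1 e2
  exact ⟨e1, fun F hF hT => e2 F (Finset.mem_range.2 (by omega)) hT⟩

/-- a vertex of depth zero is kept -/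
lemma keep_eventually (hv : IsV H K v) (hr : RO K m x y) (hd : Dep m x y v.T 0) :
    ∀ᶠ δ in 𝓝[>] (0 : ℝ), 0 < ev (W H x y δ m 0) v.x := by
  obtain ⟨A, hA0, hA⟩ := ev_lim hv hr hd
  filter_upwards [hA.eventually (lt_mem_nhds hA0)] with δ e1
  simpa using e1

/-- the pivots tend to the vertex -/
lemma piv_tendsto (hv : IsV H K v) (hr : RO K m x y) (hd : Dep m x y v.T t) (ht : 1 ≤ t) {l : ℕ}
    (hl : l = x t ∨ l = y t) (c : Fin d → ℝ) (nw : ℕ) :
    Tendsto (fun δ : ℝ => c ⬝ᵥ (piv (W H x y δ m 0) nw v l).x) (𝓝[>] 0) (𝓝 (c ⬝ᵥ v.x)) := by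
  have hτ := tau_tendsto hv hr hd ht hl
  have h4 : Tendsto (fun δ : ℝ => c ⬝ᵥ v.x +
      (-(ev (W H x y δ m 0) v.x) / D (W H x y δ m 0) (v.u l)) * (c ⬝ᵥ v.u l)) (𝓝[>] 0)
      (𝓝 (c ⬝ᵥ v.x + 0 * (c ⬝ᵥ v.u l))) :=
    (hτ.mul_const (c ⬝ᵥ v.u l)).const_add (c ⬝ᵥ v.x)
  rw [zero_mul, add_zero] at h4
  refine h4.congr' (Eventually.of_forall (fun δ => ?_))
  change _ = c ⬝ᵥ (piv (W H x y δ m 0) nw v l).x
  rw [dot_piv]
  ring

end Pool.Agent.H81.MPA
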