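import Mathlib

set_option autoImplicit false

/-!
The bound `μ(n, d)` of the Upper Bound Theorem.
-/

namespace Pool.Agent.H81.MPA

/-- `μ(n, d) = C(n - ⌈d/2⌉, ⌊d/2⌋) + C(n - ⌊d/2⌋ - 1, ⌈d/2⌉ - 1)`, the largest possible number
of vertices of a `d`-polytope with `n` facets -/
def mu (n d : ℕ) : ℕ := (n - (d + 1) / 2).choose (d / 2) + (n - d / 2 - 1).choose ((d + 1) / 2 - 1)

end Pool.Agent.H81.MPA
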