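import Pool.Agent.H81.MPA.Base
import Pool.Agent.H81.MPA.Mu

set_option autoImplicit false

/-!
The lower bound `M(d, n) ≥ (1 - 4 d² / n) μ(n, d)`.
-/

namespace Pool.Agent.H81.MPA

open Pool.Agent.H81.MonoPath

lemma bern (n a : ℝ) (ha : 0 ≤ a) (han : a ≤ n) (p : ℕ) :
    n ^ p * (n - (p + 1) * a) ≤ (n - a) ^ (p + 1) := by
  induction p with
  | zero => simp
  | succ p ih =>
    have h0 : 0 ≤ n - a := by linarith
    have h1 := mul_le_mul_of_nonneg_left ih h0
    have hn : 0 ≤ n := ha.trans han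
    have h2 : (n - a) ^ (p + 1 + 1) = (n - a) * (n - a) ^ (p + 1) := by ring
    rw [h2]
    refine le_trans ?_ h1
    have h3 : (n - a) * (n ^ p * (n - (p + 1) * a)) =
        n ^ (p + 1) * (n - (((p + 1 : ℕ) : ℝ) + 1) * a) + n ^ p * ((p + 1) * a ^ 2) := by
      push_cast
      ring
    rw [h3]
    have h4 : 0 ≤ n ^ p * ((p + 1) * a ^ 2) := by positivity
    linarith

/-- lower bound for the binomial part -/
lemma low (m i : ℕ) : (4 * (i + 1 - (m + 1))) ^ (m + 1) ≤
    (m + 1).factorial * (4 ^ (m + 1) * i.choose (m + 1)) := by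
  have h1 := Nat.pow_sub_le_descFactorial i (m + 1)
  rw [Nat.descFactorial_eq_factorial_mul_choose] at h1
  rw [mul_pow]
  calc 4 ^ (m + 1) * (i + 1 - (m + 1)) ^ (m + 1)
      ≤ 4 ^ (m + 1) * ((m + 1).factorial * i.choose (m + 1)) := Nat.mul_le_mul_left _ h1
    _ = _ := by ring

lemma high (N p : ℕ) : p.factorial * N.choose p ≤ N ^ p := by
  rw [← Nat.descFactorial_eq_factorial_mul_choose]
  exact Nat.descFactorial_le_pow N p

/-- even dimensions -/
theorem main_even (m n : ℕ) (hn : 2 * (m + 1) < n) : ∃ N, HasMonotonePath (2 * (m + 1)) n N ∧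
    n * ((n - (m + 1)).choose (m + 1) + (n - (m + 1) - 1).choose m) ≤
      n * N + 4 * (2 * (m + 1)) ^ 2 *
        ((n - (m + 1)).choose (m + 1) + (n - (m + 1) - 1).choose m) := by
  obtain ⟨j, rfl⟩ := Nat.exists_eq_add_of_le hn.le
  have hp := path_even m j
  refine ⟨_, hp, ?_⟩
  rw [show 2 * (m + 1) + j = 2 * m + 2 + j by ring]
  set n := 2 * m + 2 + j with hndef
  set μ := (n - (m + 1)).choose (m + 1) + (n - (m + 1) - 1).choose m with hμ
  by_cases hsmall : n ≤ 16 * (m + 1) ^ 2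
  · calc n * μ ≤ 4 * (2 * (m + 1)) ^ 2 * μ := by
          apply Nat.mul_le_mul_right
          calc n ≤ 16 * (m + 1) ^ 2 := hsmall
            _ = _ := by ring
      _ ≤ _ := Nat.le_add_left _ _
  · have hbig : 16 * (m + 1) ^ 2 < n := by omega
    have hsq : 16 * (m + 1) ^ 2 = 16 * m ^ 2 + 32 * m + 16 := by ring
    -- the choice of `i`
    have hj : 4 * (m + 1) + 4 ≤ j := by
      rw [hsq] at hbig
      omega
    obtain ⟨i, hi1, hi2⟩ : ∃ i, 4 * (i + (m + 1)) + 4 ≤ j ∧ j ≤ 4 * (i + (m + 1)) + 7 := by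
      refine ⟨j / 4 - 1 - (m + 1), ?_, ?_⟩ <;> omega
    have hlen := (len_even m i).trans (length_it_le hi1 [(m + 1, true)])
    set N := (it j 0 [(m + 1, true)]).length with hN
    have h1 : (m + 1).factorial * N ≥ (n - (10 * (m + 1) + 3)) ^ (m + 1) := by
      calc (n - (10 * (m + 1) + 3)) ^ (m + 1) ≤ (4 * (i + 1 - (m + 1))) ^ (m + 1) := by
            apply Nat.pow_le_pow_left
            omega
        _ ≤ (m + 1).factorial * (4 ^ (m + 1) * i.choose (m + 1)) := low m i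
        _ ≤ _ := Nat.mul_le_mul_left _ hlen
    have h2 : (m + 1).factorial * μ ≤ n ^ m * (n + (m + 1)) := by
      rw [hμ, mul_add]
      have e1 : (m + 1).factorial * (n - (m + 1)).choose (m + 1) ≤ n ^ (m + 1) :=
        (high _ _).trans (Nat.pow_le_pow_left (Nat.sub_le _ _) _)
      have e2 : (m + 1).factorial * (n - (m + 1) - 1).choose m ≤ (m + 1) * n ^ m := by
        rw [Nat.factorial_succ, mul_assoc]
        apply Nat.mul_le_mul_left
        exact (high _ _).trans (Nat.pow_le_pow_left (by omega) _)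
      calc _ ≤ n ^ (m + 1) + (m + 1) * n ^ m := Nat.add_le_add e1 e2
        _ = _ := by ring
    -- real inequality
    have hle : 10 * (m + 1) + 3 ≤ n := by
      rw [hsq] at hbig
      omega
    have h1' : ((n : ℝ) - (10 * (m + 1) + 3)) ^ (m + 1) ≤ (m + 1).factorial * N := by
      have : ((n - (10 * (m + 1) + 3) : ℕ) : ℝ) ^ (m + 1) ≤ ((m + 1).factorial * N : ℕ) := by
        exact_mod_cast h1
      rw [Nat.cast_sub hle] at this
      push_cast at this
      exact this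
    have h2' : ((m + 1).factorial : ℝ) * μ ≤ (n : ℝ) ^ m * (n + (m + 1)) := by
      exact_mod_cast h2
    have hleR : (10 * ((m : ℝ) + 1) + 3) ≤ n := by exact_mod_cast hle
    have hb := bern (n : ℝ) (10 * (m + 1) + 3) (by positivity) hleR m
    have hbigR : 16 * ((m : ℝ) + 1) ^ 2 ≤ n := by exact_mod_cast hbig.le
    have hf : (0 : ℝ) < (m + 1).factorial := by exact_mod_cast Nat.factorial_pos _
    have hnm : (0 : ℝ) ≤ (n : ℝ) ^ m := by positivity
    have hn0 : (0 : ℝ) ≤ n := by positivity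
    have hm0 : (0 : ℝ) ≤ m := by positivity
    have key : ((n : ℝ) - 16 * (m + 1) ^ 2) * μ ≤ n * N := by
      have e1 : ((n : ℝ) - 16 * (m + 1) ^ 2) * (((m + 1).factorial : ℝ) * μ) ≤
          ((n : ℝ) - 16 * (m + 1) ^ 2) * ((n : ℝ) ^ m * (n + (m + 1))) :=
        mul_le_mul_of_nonneg_left h2' (by linarith)
      have e2 : (n : ℝ) * ((n : ℝ) ^ m * (n - (m + 1) * (10 * (m + 1) + 3))) ≤
          n * ((m + 1).factorial * N) := mul_le_mul_of_nonneg_left (hb.trans h1') hn0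
      have e3 : ((n : ℝ) - 16 * (m + 1) ^ 2) * ((n : ℝ) ^ m * (n + (m + 1))) ≤
          (n : ℝ) * ((n : ℝ) ^ m * (n - (m + 1) * (10 * (m + 1) + 3))) := by
        have e4 : ((n : ℝ) - 16 * (m + 1) ^ 2) * (n + (m + 1)) ≤
            (n : ℝ) * (n - (m + 1) * (10 * (m + 1) + 3)) := by
          have e5 : (n : ℝ) * (n - (m + 1) * (10 * (m + 1) + 3)) -
              ((n : ℝ) - 16 * (m + 1) ^ 2) * (n + (m + 1)) =
              n * (m + 1) * (6 * m + 2) + 16 * (m + 1) ^ 3 := by ring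
          have e6 : (0 : ℝ) ≤ n * (m + 1) * (6 * m + 2) + 16 * (m + 1) ^ 3 := by positivity
          linarith
        calc _ = (n : ℝ) ^ m * (((n : ℝ) - 16 * (m + 1) ^ 2) * (n + (m + 1))) := by ring
          _ ≤ (n : ℝ) ^ m * ((n : ℝ) * (n - (m + 1) * (10 * (m + 1) + 3))) :=
            mul_le_mul_of_nonneg_left e4 hnm
          _ = _ := by ring
      have e7 := e1.trans (e3.trans e2)
      have e8 : ((m + 1).factorial : ℝ) * (((n : ℝ) - 16 * (m + 1) ^ 2) * μ) ≤
          ((m + 1).factorial : ℝ) * (n * N) := by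
        calc _ = ((n : ℝ) - 16 * (m + 1) ^ 2) * (((m + 1).factorial : ℝ) * μ) := by ring
          _ ≤ _ := e7
          _ = _ := by ring
      exact le_of_mul_le_mul_left e8 hf
    have key2 : (n : ℝ) * μ ≤ n * N + 4 * (2 * (m + 1)) ^ 2 * μ := by
      have : (4 : ℝ) * (2 * (m + 1)) ^ 2 * μ = 16 * (m + 1) ^ 2 * μ := by ring
      rw [this]
      linarith
    exact_mod_cast key2

/-- odd dimensions -/
theorem main_odd (m n : ℕ) (hn : 2 * (m + 1) + 1 < n) :
    ∃ N, HasMonotonePath (2 * (m + 1) + 1) n N ∧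
    n * ((n - (m + 2)).choose (m + 1) + (n - (m + 1) - 1).choose (m + 1)) ≤
      n * N + 4 * (2 * (m + 1) + 1) ^ 2 *
        ((n - (m + 2)).choose (m + 1) + (n - (m + 1) - 1).choose (m + 1)) := by
  obtain ⟨j, rfl⟩ : ∃ j, n = 2 * m + 4 + j := ⟨n - (2 * m + 4), by omega⟩
  have hp := path_odd m j
  refine ⟨_, hp, ?_⟩
  set n := 2 * m + 4 + j with hndef
  rw [show n - (m + 1) - 1 = n - (m + 2) by omega]
  set μ := (n - (m + 2)).choose (m + 1) + (n - (m + 2)).choose (m + 1) with hμ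
  by_cases hsmall : n ≤ 4 * (2 * (m + 1) + 1) ^ 2
  · calc n * μ ≤ 4 * (2 * (m + 1) + 1) ^ 2 * μ := Nat.mul_le_mul_right _ hsmall
      _ ≤ _ := Nat.le_add_left _ _
  · have hbig : 4 * (2 * (m + 1) + 1) ^ 2 < n := by omega
    have hsq : 4 * (2 * (m + 1) + 1) ^ 2 = 16 * m ^ 2 + 48 * m + 36 := by ring
    have hj : 4 * (m + 1) + 4 ≤ j := by
      rw [hsq] at hbig
      omega
    obtain ⟨i, hi1, hi2⟩ : ∃ i, 4 * (i + (m + 1)) + 4 ≤ j ∧ j ≤ 4 * (i + (m + 1)) + 7 := by
      refine ⟨j / 4 - 1 - (m + 1), ?_, ?_⟩ <;> omega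
    have hlen := (len_odd m i).trans (length_it_le hi1 [(m + 1, true), (m + 1, false)])
    set N := (it j 0 [(m + 1, true), (m + 1, false)]).length with hN
    have h1 : (m + 1).factorial * N ≥ 2 * (n - (10 * (m + 1) + 5)) ^ (m + 1) := by
      calc 2 * (n - (10 * (m + 1) + 5)) ^ (m + 1) ≤ 2 * (4 * (i + 1 - (m + 1))) ^ (m + 1) := by
            apply Nat.mul_le_mul_left
            apply Nat.pow_le_pow_left
            omega
        _ ≤ 2 * ((m + 1).factorial * (4 ^ (m + 1) * i.choose (m + 1))) :=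
          Nat.mul_le_mul_left _ (low m i)
        _ = (m + 1).factorial * (2 * (4 ^ (m + 1) * i.choose (m + 1))) := by ring
        _ ≤ _ := Nat.mul_le_mul_left _ hlen
    have h2 : (m + 1).factorial * μ ≤ 2 * n ^ (m + 1) := by
      rw [hμ, mul_add]
      have e1 : (m + 1).factorial * (n - (m + 2)).choose (m + 1) ≤ n ^ (m + 1) :=
        (high _ _).trans (Nat.pow_le_pow_left (Nat.sub_le _ _) _)
      omega
    have hle : 10 * (m + 1) + 5 ≤ n := by
      rw [hsq] at hbig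
      omega
    have h1' : 2 * ((n : ℝ) - (10 * (m + 1) + 5)) ^ (m + 1) ≤ (m + 1).factorial * N := by
      have : 2 * ((n - (10 * (m + 1) + 5) : ℕ) : ℝ) ^ (m + 1) ≤ ((m + 1).factorial * N : ℕ) := by
        exact_mod_cast h1
      rw [Nat.cast_sub hle] at this
      push_cast at this
      exact this
    have h2' : ((m + 1).factorial : ℝ) * μ ≤ 2 * (n : ℝ) ^ (m + 1) := by
      exact_mod_cast h2
    have hleR : (10 * ((m : ℝ) + 1) + 5) ≤ n := by exact_mod_cast hle
    have hb := bern (n : ℝ) (10 * (m + 1) + 5) (by positivity) hleR m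
    have hbigR : 4 * (2 * ((m : ℝ) + 1) + 1) ^ 2 ≤ n := by exact_mod_cast hbig.le
    have hf : (0 : ℝ) < (m + 1).factorial := by exact_mod_cast Nat.factorial_pos _
    have hnm : (0 : ℝ) ≤ (n : ℝ) ^ m := by positivity
    have hn0 : (0 : ℝ) ≤ n := by positivity
    have hm0 : (0 : ℝ) ≤ m := by positivity
    have key : ((n : ℝ) - 4 * (2 * (m + 1) + 1) ^ 2) * μ ≤ n * N := by
      have e1 : ((n : ℝ) - 4 * (2 * (m + 1) + 1) ^ 2) * (((m + 1).factorial : ℝ) * μ) ≤
          ((n : ℝ) - 4 * (2 * (m + 1) + 1) ^ 2) * (2 * (n : ℝ) ^ (m + 1)) :=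
        mul_le_mul_of_nonneg_left h2' (by linarith)
      have e2 : (n : ℝ) * (2 * ((n : ℝ) ^ m * (n - (m + 1) * (10 * (m + 1) + 5)))) ≤
          n * ((m + 1).factorial * N) := by
        refine mul_le_mul_of_nonneg_left ?_ hn0
        linarith
      have e3 : ((n : ℝ) - 4 * (2 * (m + 1) + 1) ^ 2) * (2 * (n : ℝ) ^ (m + 1)) ≤
          (n : ℝ) * (2 * ((n : ℝ) ^ m * (n - (m + 1) * (10 * (m + 1) + 5)))) := by
        have e4 : (n : ℝ) - 4 * (2 * (m + 1) + 1) ^ 2 ≤ n - (m + 1) * (10 * (m + 1) + 5) := by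
          nlinarith
        have e5 : (0 : ℝ) ≤ 2 * (n : ℝ) ^ (m + 1) := by positivity
        calc _ ≤ (n - (m + 1) * (10 * (m + 1) + 5)) * (2 * (n : ℝ) ^ (m + 1)) :=
              mul_le_mul_of_nonneg_right e4 e5
          _ = _ := by ring
      have e7 := e1.trans (e3.trans e2)
      have e8 : ((m + 1).factorial : ℝ) * (((n : ℝ) - 4 * (2 * (m + 1) + 1) ^ 2) * μ) ≤
          ((m + 1).factorial : ℝ) * (n * N) := by
        calc _ = ((n : ℝ) - 4 * (2 * (m + 1) + 1) ^ 2) * (((m + 1).factorial : ℝ) * μ) := by ring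
          _ ≤ _ := e7
          _ = _ := by ring
      exact le_of_mul_le_mul_left e8 hf
    have key2 : (n : ℝ) * μ ≤ n * N + 4 * (2 * (m + 1) + 1) ^ 2 * μ := by linarith
    exact_mod_cast key2

/-- the lower bound in every dimension -/
theorem main (d n : ℕ) (hd : 2 ≤ d) (hn : d < n) :
    ∃ N, HasMonotonePath d n N ∧ n * mu n d ≤ n * N + 4 * d ^ 2 * mu n d := by
  rcases Nat.even_or_odd' d with ⟨p, rfl | rfl⟩
  · obtain ⟨m, rfl⟩ : ∃ m, p = m + 1 := ⟨p - 1, by omega⟩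
    have h := main_even m n hn
    have e1 : (2 * (m + 1) + 1) / 2 = m + 1 := by omega
    have e2 : 2 * (m + 1) / 2 = m + 1 := by omega
    simp only [mu, e1, e2, Nat.add_sub_cancel]
    exact h
  · obtain ⟨m, rfl⟩ : ∃ m, p = m + 1 := ⟨p - 1, by omega⟩
    have h := main_odd m n hn
    have e1 : (2 * (m + 1) + 1 + 1) / 2 = m + 2 := by omega
    have e2 : (2 * (m + 1) + 1) / 2 = m + 1 := by omega
    have e3 : m + 2 - 1 = m + 1 := by omega
    simp only [mu, e1, e2, e3]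
    exact h

end Pool.Agent.H81.MPA
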