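import Pool.Agent.H81.MPA.Count

set_option autoImplicit false

/-!
Growth of an edge: binomial lower bounds.
-/

namespace Pool.Agent.H81.MPA

lemma lb_succ (j k t : ℕ) (β γ : Bool) : lb (j + 1) k t β γ =
    if (β != E t k) = true then lb j (k + 1) t β γ
    else if t ≤ 1 then lb j (k + 1) t β (E (t - 1) k) + 1
    else if (γ == E (t - 1) k) = true then lb j (k + 1) t β (E (t - 1) k)
    else lb j (k + 1) t β (E (t - 1) k) + lb j (k + 1) (t - 1) (E (t - 1) k) (E (t - 2) k)
      + lb j (k + 1) (t - 1) (E (t - 1) k) (!E (t - 2) k) := rfl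

lemma lb_persist (s : ℕ) : ∀ (j k t : ℕ) (β γ : Bool),
    ∃ γ', lb j (k + s) t β γ' ≤ lb (j + s) k t β γ := by
  induction s with
  | zero => intro j k t β γ; exact ⟨γ, le_rfl⟩
  | succ s ih =>
    intro j k t β γ
    have h1 : ∃ γ1, lb (j + s) (k + 1) t β γ1 ≤ lb (j + (s + 1)) k t β γ := by
      rw [← add_assoc, lb_succ]
      split_ifs
      · exact ⟨_, le_rfl⟩
      · exact ⟨_, Nat.le_add_right _ _⟩
      · exact ⟨_, le_rfl⟩
      · exact ⟨E (t - 1) k, by omega⟩
    obtain ⟨γ1, h1⟩ := h1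
    obtain ⟨γ2, h2⟩ := ih j (k + 1) t β γ1
    refine ⟨γ2, ?_⟩
    rw [show k + (s + 1) = k + 1 + s by ring]
    exact h2.trans h1

lemma lb_skip {j k t : ℕ} {β γ : Bool} (h : β ≠ E t k) :
    lb (j + 1) k t β γ = lb j (k + 1) t β γ := by
  rw [lb_succ, if_pos (by cases β <;> cases h1 : E t k <;> simp_all)]

lemma lb_one {j k : ℕ} {β γ : Bool} (h : β = E 1 k) :
    lb (j + 1) k 1 β γ = lb j (k + 1) 1 β (E 0 k) + 1 := by
  rw [lb_succ, if_neg (by rw [← h]; simp), if_pos le_rfl]

/-- a birth, possibly without separation -/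
lemma lb_birth {j k t : ℕ} {β γ : Bool} (h : β = E t k) :
    lb j (k + 1) t β (E (t - 1) k) ≤ lb (j + 1) k t β γ := by
  rw [lb_succ, if_neg (by rw [← h]; simp)]
  split_ifs <;> omega

/-- a birth with separation -/
lemma lb_sep {j k t A : ℕ} {β γ : Bool} (ht : 2 ≤ t) (h : β = E t k) (hγ : γ ≠ E (t - 1) k)
    (hA : ∀ β γ, A ≤ lb j (k + 1) (t - 1) β γ) :
    lb j (k + 1) t β (E (t - 1) k) + 2 * A ≤ lb (j + 1) k t β γ := by
  rw [lb_succ, if_neg (by rw [← h]; simp), if_neg (by omega),
    if_neg (by cases γ <;> cases h1 : E (t - 1) k <;> simp_all)]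
  have h1 := hA (E (t - 1) k) (E (t - 2) k)
  have h2 := hA (E (t - 1) k) (!E (t - 2) k)
  omega

lemma E_even {t : ℕ} (h : t % 2 = 0) (k : ℕ) : E t k = decide (k % 2 = 0) := by
  simp [E, h]

lemma E_odd {t : ℕ} (h : t % 2 = 1) (k : ℕ) : E t k = decide (k % 4 < 2) := by
  simp [E, h]

lemma Ee0 {t : ℕ} (h : t % 2 = 0) (κ : ℕ) : E t (4 * κ) = true := by
  rw [E_even h]; exact decide_eq_true (by omega)
lemma Ee1 {t : ℕ} (h : t % 2 = 0) (κ : ℕ) : E t (4 * κ + 1) = false := by
  rw [E_even h]; exact decide_eq_false (by omega)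
lemma Ee2 {t : ℕ} (h : t % 2 = 0) (κ : ℕ) : E t (4 * κ + 2) = true := by
  rw [E_even h]; exact decide_eq_true (by omega)
lemma Ee3 {t : ℕ} (h : t % 2 = 0) (κ : ℕ) : E t (4 * κ + 3) = false := by
  rw [E_even h]; exact decide_eq_false (by omega)
lemma Eo0 {t : ℕ} (h : t % 2 = 1) (κ : ℕ) : E t (4 * κ) = true := by
  rw [E_odd h]; exact decide_eq_true (by omega)
lemma Eo1 {t : ℕ} (h : t % 2 = 1) (κ : ℕ) : E t (4 * κ + 1) = true := by
  rw [E_odd h]; exact decide_eq_true (by omega)
lemma Eo2 {t : ℕ} (h : t % 2 = 1) (κ : ℕ) : E t (4 * κ + 2) = false := by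
  rw [E_odd h]; exact decide_eq_false (by omega)
lemma Eo3 {t : ℕ} (h : t % 2 = 1) (κ : ℕ) : E t (4 * κ + 3) = false := by
  rw [E_odd h]; exact decide_eq_false (by omega)

/-- one block: afterwards the edge is mature -/
lemma block_any {J κ t : ℕ} (ht : 1 ≤ t) (β γ : Bool) :
    lb J (4 * κ + 4) t β false ≤ lb (J + 4) (4 * κ) t β γ := by
  rcases Nat.mod_two_eq_zero_or_one t with h | h
  · have h' : (t - 1) % 2 = 1 := by omega
    have a0 := Ee0 h κ
    have a1 := Ee1 h κ
    have a2 := Ee2 h κ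
    have a3 := Ee3 h κ
    have b0 := Eo0 h' κ
    have b1 := Eo1 h' κ
    have b2 := Eo2 h' κ
    have b3 := Eo3 h' κ
    cases β with
    | false =>
      have s0 := @lb_skip (J + 3) (4 * κ) t false γ (by rw [a0]; simp)
      have s1 := @lb_birth (J + 2) (4 * κ + 1) t false γ a1.symm
      have s2 := @lb_skip (J + 1) (4 * κ + 2) t false (E (t - 1) (4 * κ + 1)) (by rw [a2]; simp)
      have s3 := @lb_birth J (4 * κ + 3) t false (E (t - 1) (4 * κ + 1)) a3.symm
      rw [b3] at s3
      change _ = lb (J + 2 + 1) (4 * κ + 1) t false γ at s0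
      change _ = lb (J + 1) (4 * κ + 3) t false _ at s2
      change lb (J + 1 + 1) (4 * κ + 2) t false _ ≤ _ at s1
      change lb J (4 * κ + 4) t false false ≤ _ at s3
      change lb J (4 * κ + 4) t false false ≤ lb (J + 3 + 1) (4 * κ) t false γ
      omega
    | true =>
      have s0 := @lb_birth (J + 3) (4 * κ) t true γ a0.symm
      have s1 := @lb_skip (J + 2) (4 * κ + 1) t true (E (t - 1) (4 * κ)) (by rw [a1]; simp)
      have s2 := @lb_birth (J + 1) (4 * κ + 2) t true (E (t - 1) (4 * κ)) a2.symm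
      have s3 := @lb_skip J (4 * κ + 3) t true false (by rw [a3]; simp)
      rw [b2] at s2
      change lb (J + 2 + 1) (4 * κ + 1) t true _ ≤ _ at s0
      change _ = lb (J + 1 + 1) (4 * κ + 2) t true _ at s1
      change lb (J + 1) (4 * κ + 3) t true false ≤ _ at s2
      change _ = lb J (4 * κ + 4) t true false at s3
      change lb J (4 * κ + 4) t true false ≤ lb (J + 3 + 1) (4 * κ) t true γ
      omega
  · have h' : (t - 1) % 2 = 0 := by omega
    have a0 := Eo0 h κ
    have a1 := Eo1 h κ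
    have a2 := Eo2 h κ
    have a3 := Eo3 h κ
    have b0 := Ee0 h' κ
    have b1 := Ee1 h' κ
    have b2 := Ee2 h' κ
    have b3 := Ee3 h' κ
    cases β with
    | false =>
      have s0 := @lb_skip (J + 3) (4 * κ) t false γ (by rw [a0]; simp)
      have s1 := @lb_skip (J + 2) (4 * κ + 1) t false γ (by rw [a1]; simp)
      have s2 := @lb_birth (J + 1) (4 * κ + 2) t false γ a2.symm
      have s3 := @lb_birth J (4 * κ + 3) t false (E (t - 1) (4 * κ + 2)) a3.symm
      rw [b3] at s3
      change _ = lb (J + 2 + 1) (4 * κ + 1) t false γ at s0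
      change _ = lb (J + 1 + 1) (4 * κ + 2) t false γ at s1
      change lb (J + 1) (4 * κ + 3) t false _ ≤ _ at s2
      change lb J (4 * κ + 4) t false false ≤ _ at s3
      change lb J (4 * κ + 4) t false false ≤ lb (J + 3 + 1) (4 * κ) t false γ
      omega
    | true =>
      have s0 := @lb_birth (J + 3) (4 * κ) t true γ a0.symm
      have s1 := @lb_birth (J + 2) (4 * κ + 1) t true (E (t - 1) (4 * κ)) a1.symm
      have s2 := @lb_skip (J + 1) (4 * κ + 2) t true false (by rw [a2]; simp)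
      have s3 := @lb_skip J (4 * κ + 3) t true false (by rw [a3]; simp)
      rw [b1] at s1
      change lb (J + 2 + 1) (4 * κ + 1) t true _ ≤ _ at s0
      change lb (J + 1 + 1) (4 * κ + 2) t true false ≤ _ at s1
      change _ = lb (J + 1) (4 * κ + 3) t true false at s2
      change _ = lb J (4 * κ + 4) t true false at s3
      change lb J (4 * κ + 4) t true false ≤ lb (J + 3 + 1) (4 * κ) t true γ
      omega

/-- one block at level one -/
lemma block_one {J κ : ℕ} (β γ : Bool) :
    lb J (4 * κ + 4) 1 β false + 2 ≤ lb (J + 4) (4 * κ) 1 β γ := by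
  have h : 1 % 2 = 1 := rfl
  have h' : 0 % 2 = 0 := rfl
  have a0 := Eo0 h κ
  have a1 := Eo1 h κ
  have a2 := Eo2 h κ
  have a3 := Eo3 h κ
  have b1 := Ee1 h' κ
  have b3 := Ee3 h' κ
  cases β with
  | false =>
    have s0 := @lb_skip (J + 3) (4 * κ) 1 false γ (by rw [a0]; simp)
    have s1 := @lb_skip (J + 2) (4 * κ + 1) 1 false γ (by rw [a1]; simp)
    have s2 := @lb_one (J + 1) (4 * κ + 2) false γ a2.symm
    have s3 := @lb_one J (4 * κ + 3) false (E 0 (4 * κ + 2)) a3.symm
    rw [b3] at s3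
    change _ = lb (J + 2 + 1) (4 * κ + 1) 1 false γ at s0
    change _ = lb (J + 1 + 1) (4 * κ + 2) 1 false γ at s1
    change _ = lb (J + 1) (4 * κ + 3) 1 false _ + 1 at s2
    change _ = lb J (4 * κ + 4) 1 false false + 1 at s3
    change lb J (4 * κ + 4) 1 false false + 2 ≤ lb (J + 3 + 1) (4 * κ) 1 false γ
    omega
  | true =>
    have s0 := @lb_one (J + 3) (4 * κ) true γ a0.symm
    have s1 := @lb_one (J + 2) (4 * κ + 1) true (E 0 (4 * κ)) a1.symm
    have s2 := @lb_skip (J + 1) (4 * κ + 2) 1 true false (by rw [a2]; simp)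
    have s3 := @lb_skip J (4 * κ + 3) 1 true false (by rw [a3]; simp)
    rw [b1] at s1
    change _ = lb (J + 2 + 1) (4 * κ + 1) 1 true _ + 1 at s0
    change _ = lb (J + 1 + 1) (4 * κ + 2) 1 true false + 1 at s1
    change _ = lb (J + 1) (4 * κ + 3) 1 true false at s2
    change _ = lb J (4 * κ + 4) 1 true false at s3
    change lb J (4 * κ + 4) 1 true false + 2 ≤ lb (J + 3 + 1) (4 * κ) 1 true γ
    omega

/-- one block of a mature edge -/
lemma block_mat {J κ t A : ℕ} (ht : 2 ≤ t) (hA : ∀ β γ, A ≤ lb J (4 * κ + 4) (t - 1) β γ)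
    (β : Bool) : lb J (4 * κ + 4) t β false + 4 * A ≤ lb (J + 4) (4 * κ) t β false := by
  have hA0 : ∀ β γ, A ≤ lb (J + 3) (4 * κ + 1) (t - 1) β γ := fun β γ => by
    obtain ⟨γ', h⟩ := lb_persist 3 J (4 * κ + 1) (t - 1) β γ
    exact (hA β γ').trans h
  have hA1 : ∀ β γ, A ≤ lb (J + 2) (4 * κ + 1 + 1) (t - 1) β γ := fun β γ => by
    obtain ⟨γ', h⟩ := lb_persist 2 J (4 * κ + 1 + 1) (t - 1) β γ
    exact (hA β γ').trans h
  have hA2 : ∀ β γ, A ≤ lb (J + 1) (4 * κ + 2 + 1) (t - 1) β γ := fun β γ => by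
    obtain ⟨γ', h⟩ := lb_persist 1 J (4 * κ + 2 + 1) (t - 1) β γ
    exact (hA β γ').trans h
  have hA3 : ∀ β γ, A ≤ lb J (4 * κ + 3 + 1) (t - 1) β γ := hA
  rcases Nat.mod_two_eq_zero_or_one t with h | h
  · have h' : (t - 1) % 2 = 1 := by omega
    have a0 := Ee0 h κ
    have a1 := Ee1 h κ
    have a2 := Ee2 h κ
    have a3 := Ee3 h κ
    have b0 := Eo0 h' κ
    have b1 := Eo1 h' κ
    have b2 := Eo2 h' κ
    have b3 := Eo3 h' κ
    cases β with
    | false =>
      have s0 := @lb_skip (J + 3) (4 * κ) t false false (by rw [a0]; simp)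
      have s1 := @lb_sep (J + 2) (4 * κ + 1) t A false false ht a1.symm (by rw [b1]; simp) hA1
      rw [b1] at s1
      have s2 := @lb_skip (J + 1) (4 * κ + 2) t false true (by rw [a2]; simp)
      have s3 := @lb_sep J (4 * κ + 3) t A false true ht a3.symm (by rw [b3]; simp) hA3
      rw [b3] at s3
      change _ = lb (J + 2 + 1) (4 * κ + 1) t false false at s0
      change lb (J + 1 + 1) (4 * κ + 2) t false true + 2 * A ≤ _ at s1
      change _ = lb (J + 1) (4 * κ + 3) t false true at s2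
      change lb J (4 * κ + 4) t false false + 2 * A ≤ _ at s3
      change lb J (4 * κ + 4) t false false + 4 * A ≤ lb (J + 3 + 1) (4 * κ) t false false
      omega
    | true =>
      have s0 := @lb_sep (J + 3) (4 * κ) t A true false ht a0.symm (by rw [b0]; simp) hA0
      rw [b0] at s0
      have s1 := @lb_skip (J + 2) (4 * κ + 1) t true true (by rw [a1]; simp)
      have s2 := @lb_sep (J + 1) (4 * κ + 2) t A true true ht a2.symm (by rw [b2]; simp) hA2
      rw [b2] at s2
      have s3 := @lb_skip J (4 * κ + 3) t true false (by rw [a3]; simp)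
      change lb (J + 2 + 1) (4 * κ + 1) t true true + 2 * A ≤ _ at s0
      change _ = lb (J + 1 + 1) (4 * κ + 2) t true true at s1
      change lb (J + 1) (4 * κ + 3) t true false + 2 * A ≤ _ at s2
      change _ = lb J (4 * κ + 4) t true false at s3
      change lb J (4 * κ + 4) t true false + 4 * A ≤ lb (J + 3 + 1) (4 * κ) t true false
      omega
  · have h' : (t - 1) % 2 = 0 := by omega
    have a0 := Eo0 h κ
    have a1 := Eo1 h κ
    have a2 := Eo2 h κ
    have a3 := Eo3 h κ
    have b0 := Ee0 h' κ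
    have b1 := Ee1 h' κ
    have b2 := Ee2 h' κ
    have b3 := Ee3 h' κ
    cases β with
    | false =>
      have s0 := @lb_skip (J + 3) (4 * κ) t false false (by rw [a0]; simp)
      have s1 := @lb_skip (J + 2) (4 * κ + 1) t false false (by rw [a1]; simp)
      have s2 := @lb_sep (J + 1) (4 * κ + 2) t A false false ht a2.symm (by rw [b2]; simp) hA2
      rw [b2] at s2
      have s3 := @lb_sep J (4 * κ + 3) t A false true ht a3.symm (by rw [b3]; simp) hA3
      rw [b3] at s3
      change _ = lb (J + 2 + 1) (4 * κ + 1) t false false at s0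
      change _ = lb (J + 1 + 1) (4 * κ + 2) t false false at s1
      change lb (J + 1) (4 * κ + 3) t false true + 2 * A ≤ _ at s2
      change lb J (4 * κ + 4) t false false + 2 * A ≤ _ at s3
      change lb J (4 * κ + 4) t false false + 4 * A ≤ lb (J + 3 + 1) (4 * κ) t false false
      omega
    | true =>
      have s0 := @lb_sep (J + 3) (4 * κ) t A true false ht a0.symm (by rw [b0]; simp) hA0
      rw [b0] at s0
      have s1 := @lb_sep (J + 2) (4 * κ + 1) t A true true ht a1.symm (by rw [b1]; simp) hA1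
      rw [b1] at s1
      have s2 := @lb_skip (J + 1) (4 * κ + 2) t true false (by rw [a2]; simp)
      have s3 := @lb_skip J (4 * κ + 3) t true false (by rw [a3]; simp)
      change lb (J + 2 + 1) (4 * κ + 1) t true true + 2 * A ≤ _ at s0
      change lb (J + 1 + 1) (4 * κ + 2) t true false + 2 * A ≤ _ at s1
      change _ = lb (J + 1) (4 * κ + 3) t true false at s2
      change _ = lb J (4 * κ + 4) t true false at s3
      change lb J (4 * κ + 4) t true false + 4 * A ≤ lb (J + 3 + 1) (4 * κ) t true false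
      omega

/-- growth of an arbitrary edge and of a mature edge at level `t + 1` -/
theorem lb_growth (t : ℕ) :
    (∀ i κ : ℕ, ∀ β : Bool, 2 * 4 ^ t * i.choose (t + 1) ≤
      lb (4 * (i + t)) (4 * κ) (t + 1) β false) ∧
    (∀ i κ : ℕ, ∀ β γ : Bool, 2 * 4 ^ t * i.choose (t + 1) ≤
      lb (4 * (i + (t + 1))) (4 * κ) (t + 1) β γ) := by
  have key : (∀ i κ : ℕ, ∀ β : Bool, 2 * 4 ^ t * i.choose (t + 1) ≤
      lb (4 * (i + t)) (4 * κ) (t + 1) β false) → (∀ i κ : ℕ, ∀ β γ : Bool,
      2 * 4 ^ t * i.choose (t + 1) ≤ lb (4 * (i + (t + 1))) (4 * κ) (t + 1) β γ) := by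
    intro h i κ β γ
    have h1 := h i (κ + 1) β
    have h2 := @block_any (4 * (i + t)) κ (t + 1) (by omega) β γ
    rw [show 4 * (i + (t + 1)) = 4 * (i + t) + 4 by ring]
    rw [show 4 * (κ + 1) = 4 * κ + 4 by ring] at h1
    exact h1.trans h2
  induction t with
  | zero =>
    have h1 : ∀ i κ : ℕ, ∀ β : Bool, 2 * 4 ^ 0 * i.choose (0 + 1) ≤
        lb (4 * (i + 0)) (4 * κ) (0 + 1) β false := by
      intro i
      induction i with
      | zero => intro κ β; simp
      | succ i ih =>
        intro κ β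
        have e1 := ih (κ + 1) β
        have e2 := @block_one (4 * (i + 0)) κ β false
        rw [show 4 * (κ + 1) = 4 * κ + 4 by ring] at e1
        rw [show 4 * (i + 1 + 0) = 4 * (i + 0) + 4 by ring]
        simp only [zero_add, Nat.choose_one_right, pow_zero, mul_one] at e1 ⊢
        change _ ≤ lb (4 * (i + 0) + 4) (4 * κ) 1 β false
        change _ ≤ lb (4 * (i + 0)) (4 * κ + 4) 1 β false at e1
        omega
    exact ⟨h1, key h1⟩
  | succ t ih =>
    have ih' := ih (fun h i κ β γ => by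
      have h1 := h i (κ + 1) β
      have h2 := @block_any (4 * (i + t)) κ (t + 1) (by omega) β γ
      rw [show 4 * (i + (t + 1)) = 4 * (i + t) + 4 by ring]
      rw [show 4 * (κ + 1) = 4 * κ + 4 by ring] at h1
      exact h1.trans h2)
    have h1 : ∀ i κ : ℕ, ∀ β : Bool, 2 * 4 ^ (t + 1) * i.choose (t + 1 + 1) ≤
        lb (4 * (i + (t + 1))) (4 * κ) (t + 1 + 1) β false := by
      intro i
      induction i with
      | zero => intro κ β; simp
      | succ i ih2 =>
        intro κ β
        have e1 := ih2 (κ + 1) β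
        rw [show 4 * (κ + 1) = 4 * κ + 4 by ring] at e1
        have e2 := @block_mat (4 * (i + (t + 1))) κ (t + 1 + 1) (2 * 4 ^ t * i.choose (t + 1))
          (by omega) (fun β γ => by
            have := ih'.2 i (κ + 1) β γ
            rw [show 4 * (κ + 1) = 4 * κ + 4 by ring] at this
            exact this) β
        rw [show 4 * (i + 1 + (t + 1)) = 4 * (i + (t + 1)) + 4 by ring]
        refine le_trans ?_ e2
        rw [Nat.choose_succ_succ]
        calc 2 * 4 ^ (t + 1) * (i.choose (t + 1) + i.choose (t + 1 + 1))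
            = 2 * 4 ^ (t + 1) * i.choose (t + 1 + 1) + 4 * (2 * 4 ^ t * i.choose (t + 1)) := by
              ring
          _ ≤ _ := Nat.add_le_add_right e1 _
    exact ⟨h1, key h1⟩

end Pool.Agent.H81.MPA
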