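import Pool.Agent.H81.MPA.Roles
import Pool.Agent.H81.MP5.Defs

set_option autoImplicit false

/-!
Adjacency of the children of consecutive records.
-/

namespace Pool.Agent.H81.MPA

open Matrix Filter Topology Pool.Agent.H81.MonoPath Pool.Agent.H81.MP5

variable {d : ℕ}

/-- consecutive records of a path -/
def Rel (c : Fin d → ℝ) (k : ℕ) (x y : ℕ → ℕ) (p p' : Vx d × Lt) : Prop :=
  c ⬝ᵥ p.1.x < c ⬝ᵥ p'.1.x ∧ p.2.1 ≤ p'.2.1 + 1 ∧ p'.2.1 ≤ p.2.1 + 1 ∧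
  ∃ F F', p.1.T \ p'.1.T = {F} ∧ p'.1.T \ p.1.T = {F'} ∧
    (p'.2.1 = p.2.1 + 1 → F' = if q k p'.2 then y p'.2.1 else x p'.2.1) ∧
    (p.2.1 = p'.2.1 + 1 → F = if q k p.2 then x p.2.1 else y p.2.1)

/-! ### Finite sets -/

lemma mem_of_sdiff_left {A B : Finset ℕ} {F : ℕ} (h : A \ B = {F}) : F ∈ A ∧ F ∉ B := by
  have : F ∈ A \ B := by rw [h]; exact Finset.mem_singleton_self F
  exact Finset.mem_sdiff.1 this

lemma mem_of_ne {A B : Finset ℕ} {F z : ℕ} (h : A \ B = {F}) (hz : z ∈ A) (hne : z ≠ F) :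
    z ∈ B := by
  by_contra h0
  have : z ∈ A \ B := Finset.mem_sdiff.2 ⟨hz, h0⟩
  rw [h, Finset.mem_singleton] at this
  exact hne this

/-- both sets lose the same label -/
lemma sd_same {A B : Finset ℕ} {n j F : ℕ} (hn : n ∉ A) (h : A \ B = {F}) (hj : j ∈ B) :
    insert n (A.erase j) \ insert n (B.erase j) = {F} := by
  obtain ⟨hFA, hFB⟩ := mem_of_sdiff_left h
  ext z
  simp only [Finset.mem_sdiff, Finset.mem_insert, Finset.mem_erase, Finset.mem_singleton]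
  constructor
  · rintro ⟨h1 | ⟨h1, h2⟩, h3⟩
    · exact absurd (Or.inl h1) h3
    · by_contra h4
      exact h3 (Or.inr ⟨h1, mem_of_ne h h2 h4⟩)
  · rintro rfl
    refine ⟨Or.inr ⟨fun h0 => hFB (h0 ▸ hj), hFA⟩, ?_⟩
    rintro (h1 | ⟨-, h1⟩)
    · exact hn (h1 ▸ hFA)
    · exact hFB h1

/-- `B` loses the label not in `A`, `A` loses the common label `j` -/
lemma sd_one {A B : Finset ℕ} {n j F F' : ℕ} (hnA : n ∉ A) (h : A \ B = {F})
    (h' : B \ A = {F'}) (hjA : j ∈ A) (hjB : j ∈ B) :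
    insert n (B.erase F') \ insert n (A.erase j) = {j} ∧
      insert n (A.erase j) \ insert n (B.erase F') = {F} := by
  obtain ⟨hFA, hFB⟩ := mem_of_sdiff_left h
  obtain ⟨hFB', hFA'⟩ := mem_of_sdiff_left h'
  constructor
  · ext z
    simp only [Finset.mem_sdiff, Finset.mem_insert, Finset.mem_erase, Finset.mem_singleton]
    constructor
    · rintro ⟨h1 | ⟨h1, h2⟩, h3⟩
      · exact absurd (Or.inl h1) h3
      · by_contra h4
        exact h3 (Or.inr ⟨h4, mem_of_ne h' h2 h1⟩)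
    · rintro rfl
      refine ⟨Or.inr ⟨fun h0 => hFA' (h0 ▸ hjA), hjB⟩, ?_⟩
      rintro (h1 | ⟨h1, -⟩)
      · exact hnA (h1 ▸ hjA)
      · exact h1 rfl
  · ext z
    simp only [Finset.mem_sdiff, Finset.mem_insert, Finset.mem_erase, Finset.mem_singleton]
    constructor
    · rintro ⟨h1 | ⟨h1, h2⟩, h3⟩
      · exact absurd (Or.inl h1) h3
      · by_contra h4
        have h5 := mem_of_ne h h2 h4
        exact h3 (Or.inr ⟨fun h0 => hFA' (h0 ▸ h2), h5⟩)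
    · rintro rfl
      refine ⟨Or.inr ⟨fun h0 => hFB (h0 ▸ hjB), hFA⟩, ?_⟩
      rintro (h1 | ⟨-, h1⟩)
      · exact hnA (h1 ▸ hFA)
      · exact hFB h1

variable {K m k : ℕ} {x y : ℕ → ℕ} {H : ℕ → Form d} {c : Fin d → ℝ} {h : Form d}

/-! ### Labels of the new level -/

lemma selT {a : Lt} {nw : ℕ} (hq : q k a = true) :
    (if q (k + 1) a then ny k nw x y a.1 else nx k nw x y a.1) = up nw y a.1 := by
  by_cases hE : E a.1 (k + 1) = E a.1 k
  · rw [q_same hE, hq, if_pos rfl, ny, if_pos hE]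
  · rw [q_flip hE, hq, Bool.not_true, if_neg Bool.false_ne_true, nx, if_neg hE]

lemma selF {a : Lt} {nw : ℕ} (hq : q k a = false) :
    (if q (k + 1) a then ny k nw x y a.1 else nx k nw x y a.1) = x a.1 := by
  by_cases hE : E a.1 (k + 1) = E a.1 k
  · rw [q_same hE, hq, if_neg Bool.false_ne_true, nx, if_pos hE]
  · rw [q_flip hE, hq, Bool.not_false, if_pos rfl, ny, if_neg hE]

lemma selT' {a : Lt} {nw : ℕ} (hq : q k a = true) :
    (if q (k + 1) a then nx k nw x y a.1 else ny k nw x y a.1) = x a.1 := by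
  by_cases hE : E a.1 (k + 1) = E a.1 k
  · rw [q_same hE, hq, if_pos rfl, nx, if_pos hE]
  · rw [q_flip hE, hq, Bool.not_true, if_neg Bool.false_ne_true, ny, if_neg hE]

lemma selF' {a : Lt} {nw : ℕ} (hq : q k a = false) :
    (if q (k + 1) a then nx k nw x y a.1 else ny k nw x y a.1) = up nw y a.1 := by
  by_cases hE : E a.1 (k + 1) = E a.1 k
  · rw [q_same hE, hq, if_neg Bool.false_ne_true, ny, if_pos hE]
  · rw [q_flip hE, hq, Bool.not_false, if_pos rfl, nx, if_neg hE]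

lemma selL {a : Lt} {nw : ℕ} (hq : q k a = false) :
    (if q (k + 1) (lo k a) then ny k nw x y (a.1 - 1) else nx k nw x y (a.1 - 1)) =
      x (a.1 - 1) := by
  by_cases hE : E (a.1 - 1) (k + 1) = E (a.1 - 1) k
  · rw [q_lo_same hE, hq, if_neg Bool.false_ne_true, nx, if_pos hE]
  · rw [q_lo_flip hE, hq, Bool.not_false, if_pos rfl, ny, if_neg hE]

lemma selL' {a : Lt} {nw : ℕ} (hq : q k a = true) :
    (if q (k + 1) (lo k a) then nx k nw x y (a.1 - 1) else ny k nw x y (a.1 - 1)) =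
      x (a.1 - 1) := by
  by_cases hE : E (a.1 - 1) (k + 1) = E (a.1 - 1) k
  · rw [q_lo_same hE, hq, if_pos rfl, nx, if_pos hE]
  · rw [q_lo_flip hE, hq, Bool.not_true, if_neg Bool.false_ne_true, ny, if_neg hE]

/-! ### The ten links -/

/-- the new relation -/
abbrev Rel' (c : Fin d → ℝ) (k K : ℕ) (x y : ℕ → ℕ) : Vx d × Lt → Vx d × Lt → Prop :=
  Rel c (k + 1) (nx k (K + 1) x y) (ny k (K + 1) x y)

/-- inside a record: `N → O` -/
lemma link_NO {a : Vx d × Lt} (ha : Ok H K m k x y c a) (hr : RO K m x y) (ht : 1 ≤ a.2.1)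
    (hq : q k a.2 = false) (hlt : c ⬝ᵥ (Nc h (K + 1) k x a).1.x < c ⬝ᵥ (Oc h (K + 1) y a).1.x) :
    Rel' c k K x y (Nc h (K + 1) k x a) (Oc h (K + 1) y a) := by
  have hle := ha.dep.le
  rw [Oc_pos ht] at hlt ⊢
  have hxy := hr.xy _ _ ht hle ht hle
  have hx := ha.dep.mx _ ht le_rfl
  have hy := ha.dep.my _ ht le_rfl
  refine ⟨hlt, ?_, ?_, y a.2.1, x a.2.1, sdiff_two ha.isV.notMem hy hxy,
    sdiff_two ha.isV.notMem hx hxy.symm, fun _ => (selF hq).symm, fun h0 => ?_⟩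
  · change a.2.1 - 1 ≤ a.2.1 + 1
    omega
  · change a.2.1 ≤ a.2.1 - 1 + 1
    omega
  · exfalso
    change a.2.1 - 1 = a.2.1 + 1 at h0
    omega

/-- inside a record: `O → N` -/
lemma link_ON {a : Vx d × Lt} (ha : Ok H K m k x y c a) (hr : RO K m x y) (ht : 1 ≤ a.2.1)
    (hq : q k a.2 = true) (hlt : c ⬝ᵥ (Oc h (K + 1) y a).1.x < c ⬝ᵥ (Nc h (K + 1) k x a).1.x) :
    Rel' c k K x y (Oc h (K + 1) y a) (Nc h (K + 1) k x a) := by
  have hle := ha.dep.le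
  rw [Oc_pos ht] at hlt ⊢
  have hxy := hr.xy _ _ ht hle ht hle
  have hx := ha.dep.mx _ ht le_rfl
  have hy := ha.dep.my _ ht le_rfl
  refine ⟨hlt, ?_, ?_, x a.2.1, y a.2.1, sdiff_two ha.isV.notMem hx hxy.symm,
    sdiff_two ha.isV.notMem hy hxy, fun h0 => ?_, fun _ => (selT' hq).symm⟩
  · change a.2.1 ≤ a.2.1 - 1 + 1
    omega
  · change a.2.1 - 1 ≤ a.2.1 + 1
    omega
  · exfalso
    change a.2.1 - 1 = a.2.1 + 1 at h0
    omega

section up
variable {a b : Vx d × Lt} (ha : Ok H K m k x y c a) (hb : Ok H K m k x y c b)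
  (hab : Rel c k x y a b) (hs : b.2.1 = a.2.1 + 1)
include ha hb hab hs

/-- up edge, `O → N` -/
lemma up_ON (hq : q k b.2 = false)
    (hlt : c ⬝ᵥ (Oc h (K + 1) y a).1.x < c ⬝ᵥ (Nc h (K + 1) k x b).1.x) :
    Rel' c k K x y (Oc h (K + 1) y a) (Nc h (K + 1) k x b) := by
  obtain ⟨-, -, -, F, F', hF, hF', hu, -⟩ := hab
  have hu := hu hs
  rw [hq, if_neg Bool.false_ne_true] at hu
  subst hu
  rcases Nat.eq_zero_or_pos a.2.1 with h0 | h0
  · rw [Oc_zero h0] at hlt ⊢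
    obtain ⟨e1, e2⟩ := sdiff_piv_left ha.isV.notMem hF' hF
    refine ⟨hlt, ?_, ?_, F, K + 1, e2, e1, fun h1 => ?_, fun h1 => ?_⟩
    · change a.2.1 ≤ b.2.1 - 1 + 1
      omega
    · change b.2.1 - 1 ≤ a.2.1 + 1
      omega
    · exfalso
      change b.2.1 - 1 = a.2.1 + 1 at h1
      omega
    · exfalso
      change a.2.1 = b.2.1 - 1 + 1 at h1
      omega
  · rw [Oc_pos h0] at hlt ⊢
    obtain ⟨e1, e2⟩ := sd_one ha.isV.notMem hF hF'
      (ha.dep.my _ h0 le_rfl) (hb.dep.my _ h0 (by omega))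
    refine ⟨hlt, ?_, ?_, F, y a.2.1, e2, e1, fun h1 => ?_, fun h1 => ?_⟩
    · change a.2.1 ≤ b.2.1 - 1 + 1
      omega
    · change b.2.1 - 1 ≤ a.2.1 + 1
      omega
    · exfalso
      change b.2.1 - 1 = a.2.1 + 1 at h1
      omega
    · exfalso
      change a.2.1 = b.2.1 - 1 + 1 at h1
      omega

/-- up edge, `N → N` -/
lemma up_NN (h0 : 1 ≤ a.2.1) (hq : q k b.2 = false)
    (hlt : c ⬝ᵥ (Nc h (K + 1) k x a).1.x < c ⬝ᵥ (Nc h (K + 1) k x b).1.x) :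
    Rel' c k K x y (Nc h (K + 1) k x a) (Nc h (K + 1) k x b) := by
  obtain ⟨-, -, -, F, F', hF, hF', hu, -⟩ := hab
  have hu := hu hs
  rw [hq, if_neg Bool.false_ne_true] at hu
  subst hu
  obtain ⟨e1, e2⟩ := sd_one ha.isV.notMem hF hF'
    (ha.dep.mx _ h0 le_rfl) (hb.dep.mx _ h0 (by omega))
  refine ⟨hlt, ?_, ?_, F, x a.2.1, e2, e1, fun h1 => ?_, fun h1 => ?_⟩
  · change a.2.1 - 1 ≤ b.2.1 - 1 + 1
    omega
  · change b.2.1 - 1 ≤ a.2.1 - 1 + 1
    omega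
  · have h2 := selL (x := x) (y := y) (nw := K + 1) hq
    rw [show b.2.1 - 1 = a.2.1 by omega] at h2
    change _ = if q (k + 1) (lo k b.2) then ny k (K + 1) x y (b.2.1 - 1)
      else nx k (K + 1) x y (b.2.1 - 1)
    rw [show b.2.1 - 1 = a.2.1 by omega]
    exact h2.symm
  · exfalso
    change a.2.1 - 1 = b.2.1 - 1 + 1 at h1
    omega

/-- up edge, `O → O` -/
lemma up_OO (hq : q k b.2 = true)
    (hlt : c ⬝ᵥ (Oc h (K + 1) y a).1.x < c ⬝ᵥ (Oc h (K + 1) y b).1.x) :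
    Rel' c k K x y (Oc h (K + 1) y a) (Oc h (K + 1) y b) := by
  obtain ⟨-, -, -, F, F', hF, hF', hu, -⟩ := hab
  have hu := hu hs
  rw [hq, if_pos rfl] at hu
  subst hu
  have hbt : 1 ≤ b.2.1 := by omega
  rw [Oc_pos hbt] at hlt ⊢
  have hsel := selT (x := x) (y := y) (nw := K + 1) hq
  rcases Nat.eq_zero_or_pos a.2.1 with h0 | h0
  · rw [Oc_zero h0] at hlt ⊢
    obtain ⟨e1, e2⟩ := sdiff_piv_left ha.isV.notMem hF' hF
    refine ⟨hlt, ?_, ?_, F, K + 1, e2, e1, fun h1 => ?_, fun h1 => ?_⟩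
    · change a.2.1 ≤ b.2.1 + 1
      omega
    · change b.2.1 ≤ a.2.1 + 1
      omega
    · refine Eq.trans ?_ hsel.symm
      rw [hs, h0, zero_add, up_one]
    · exfalso
      change a.2.1 = b.2.1 + 1 at h1
      omega
  · rw [Oc_pos h0] at hlt ⊢
    obtain ⟨e1, e2⟩ := sd_one ha.isV.notMem hF hF'
      (ha.dep.my _ h0 le_rfl) (hb.dep.my _ h0 (by omega))
    refine ⟨hlt, ?_, ?_, F, y a.2.1, e2, e1, fun h1 => ?_, fun h1 => ?_⟩
    · change a.2.1 ≤ b.2.1 + 1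
      omega
    · change b.2.1 ≤ a.2.1 + 1
      omega
    · refine Eq.trans ?_ hsel.symm
      obtain ⟨s, h3⟩ := Nat.exists_eq_add_of_le h0
      rw [hs, show a.2.1 + 1 = s + 2 by omega, up_succ, h3, add_comm]
    · exfalso
      change a.2.1 = b.2.1 + 1 at h1
      omega

end up

section down
variable {a b : Vx d × Lt} (ha : Ok H K m k x y c a) (hb : Ok H K m k x y c b)
  (hab : Rel c k x y a b) (hs : a.2.1 = b.2.1 + 1)
include ha hb hab hs

/-- down edge, `N → O` -/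
lemma down_NO (hq : q k a.2 = true)
    (hlt : c ⬝ᵥ (Nc h (K + 1) k x a).1.x < c ⬝ᵥ (Oc h (K + 1) y b).1.x) :
    Rel' c k K x y (Nc h (K + 1) k x a) (Oc h (K + 1) y b) := by
  obtain ⟨-, -, -, F, F', hF, hF', -, hu⟩ := hab
  have hu := hu hs
  rw [hq, if_pos rfl] at hu
  subst hu
  rcases Nat.eq_zero_or_pos b.2.1 with h0 | h0
  · rw [Oc_zero h0] at hlt ⊢
    obtain ⟨e1, e2⟩ := sdiff_piv_left hb.isV.notMem hF hF'
    refine ⟨hlt, ?_, ?_, K + 1, F', e1, e2, fun h1 => ?_, fun h1 => ?_⟩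
    · change a.2.1 - 1 ≤ b.2.1 + 1
      omega
    · change b.2.1 ≤ a.2.1 - 1 + 1
      omega
    · exfalso
      change b.2.1 = a.2.1 - 1 + 1 at h1
      omega
    · exfalso
      change a.2.1 - 1 = b.2.1 + 1 at h1
      omega
  · rw [Oc_pos h0] at hlt ⊢
    obtain ⟨e1, e2⟩ := sd_one hb.isV.notMem hF' hF
      (hb.dep.my _ h0 le_rfl) (ha.dep.my _ h0 (by omega))
    refine ⟨hlt, ?_, ?_, y b.2.1, F', e1, e2, fun h1 => ?_, fun h1 => ?_⟩
    · change a.2.1 - 1 ≤ b.2.1 + 1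
      omega
    · change b.2.1 ≤ a.2.1 - 1 + 1
      omega
    · exfalso
      change b.2.1 = a.2.1 - 1 + 1 at h1
      omega
    · exfalso
      change a.2.1 - 1 = b.2.1 + 1 at h1
      omega

/-- down edge, `N → N` -/
lemma down_NN (h0 : 1 ≤ b.2.1) (hq : q k a.2 = true)
    (hlt : c ⬝ᵥ (Nc h (K + 1) k x a).1.x < c ⬝ᵥ (Nc h (K + 1) k x b).1.x) :
    Rel' c k K x y (Nc h (K + 1) k x a) (Nc h (K + 1) k x b) := by
  obtain ⟨-, -, -, F, F', hF, hF', -, hu⟩ := hab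
  have hu := hu hs
  rw [hq, if_pos rfl] at hu
  subst hu
  obtain ⟨e1, e2⟩ := sd_one hb.isV.notMem hF' hF
    (hb.dep.mx _ h0 le_rfl) (ha.dep.mx _ h0 (by omega))
  refine ⟨hlt, ?_, ?_, x b.2.1, F', e1, e2, fun h1 => ?_, fun h1 => ?_⟩
  · change a.2.1 - 1 ≤ b.2.1 - 1 + 1
    omega
  · change b.2.1 - 1 ≤ a.2.1 - 1 + 1
    omega
  · exfalso
    change b.2.1 - 1 = a.2.1 - 1 + 1 at h1
    omega
  · have h2 := selL' (x := x) (y := y) (nw := K + 1) hq
    rw [show a.2.1 - 1 = b.2.1 by omega] at h2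
    change _ = if q (k + 1) (lo k a.2) then nx k (K + 1) x y (a.2.1 - 1)
      else ny k (K + 1) x y (a.2.1 - 1)
    rw [show a.2.1 - 1 = b.2.1 by omega]
    exact h2.symm

/-- down edge, `O → O` -/
lemma down_OO (hq : q k a.2 = false)
    (hlt : c ⬝ᵥ (Oc h (K + 1) y a).1.x < c ⬝ᵥ (Oc h (K + 1) y b).1.x) :
    Rel' c k K x y (Oc h (K + 1) y a) (Oc h (K + 1) y b) := by
  obtain ⟨-, -, -, F, F', hF, hF', -, hu⟩ := hab
  have hu := hu hs
  rw [hq, if_neg Bool.false_ne_true] at hu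
  subst hu
  have hat : 1 ≤ a.2.1 := by omega
  rw [Oc_pos hat] at hlt ⊢
  have hsel := selF' (x := x) (y := y) (nw := K + 1) hq
  rcases Nat.eq_zero_or_pos b.2.1 with h0 | h0
  · rw [Oc_zero h0] at hlt ⊢
    obtain ⟨e1, e2⟩ := sdiff_piv_left hb.isV.notMem hF hF'
    refine ⟨hlt, ?_, ?_, K + 1, F', e1, e2, fun h1 => ?_, fun h1 => ?_⟩
    · change a.2.1 ≤ b.2.1 + 1
      omega
    · change b.2.1 ≤ a.2.1 + 1
      omega
    · exfalso
      change b.2.1 = a.2.1 + 1 at h1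
      omega
    · refine Eq.trans ?_ hsel.symm
      rw [hs, h0, zero_add, up_one]
  · rw [Oc_pos h0] at hlt ⊢
    obtain ⟨e1, e2⟩ := sd_one hb.isV.notMem hF' hF
      (hb.dep.my _ h0 le_rfl) (ha.dep.my _ h0 (by omega))
    refine ⟨hlt, ?_, ?_, y b.2.1, F', e1, e2, fun h1 => ?_, fun h1 => ?_⟩
    · change a.2.1 ≤ b.2.1 + 1
      omega
    · change b.2.1 ≤ a.2.1 + 1
      omega
    · exfalso
      change b.2.1 = a.2.1 + 1 at h1
      omega
    · refine Eq.trans ?_ hsel.symm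
      obtain ⟨s, h3⟩ := Nat.exists_eq_add_of_le h0
      rw [hs, show b.2.1 + 1 = s + 2 by omega, up_succ, h3, add_comm]

end down

section flat
variable {a b : Vx d × Lt} (ha : Ok H K m k x y c a) (hb : Ok H K m k x y c b)
  (hab : Rel c k x y a b) (hs : a.2.1 = b.2.1)
include ha hb hab hs

/-- flat edge, `O → O` -/
lemma flat_OO (hlt : c ⬝ᵥ (Oc h (K + 1) y a).1.x < c ⬝ᵥ (Oc h (K + 1) y b).1.x) :
    Rel' c k K x y (Oc h (K + 1) y a) (Oc h (K + 1) y b) := by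
  obtain ⟨-, -, -, F, F', hF, hF', -, -⟩ := hab
  rcases Nat.eq_zero_or_pos a.2.1 with h0 | h0
  · rw [Oc_zero h0, Oc_zero (hs ▸ h0)] at hlt ⊢
    exact ⟨hlt, by omega, by omega, F, F', hF, hF', fun h1 => by omega, fun h1 => by omega⟩
  · rw [Oc_pos h0, Oc_pos (hs ▸ h0)] at hlt ⊢
    have e1 := ha.dep.my _ h0 le_rfl
    have e2 := hb.dep.my _ h0 hs.le
    have hT : (piv h (K + 1) b.1 (y b.2.1)).T = insert (K + 1) (b.1.T.erase (y a.2.1)) := by
      rw [hs]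
      rfl
    have hT' : (piv h (K + 1) a.1 (y a.2.1)).T = insert (K + 1) (a.1.T.erase (y a.2.1)) := rfl
    refine ⟨hlt, ?_, ?_, F, F', ?_, ?_, fun h1 => ?_, fun h1 => ?_⟩
    · change a.2.1 ≤ b.2.1 + 1
      omega
    · change b.2.1 ≤ a.2.1 + 1
      omega
    · change (piv h (K + 1) a.1 (y a.2.1)).T \ (piv h (K + 1) b.1 (y b.2.1)).T = {F}
      rw [hT, hT']
      exact sd_same ha.isV.notMem hF e2
    · change (piv h (K + 1) b.1 (y b.2.1)).T \ (piv h (K + 1) a.1 (y a.2.1)).T = {F'}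
      rw [hT, hT']
      exact sd_same hb.isV.notMem hF' e1
    · exfalso
      change b.2.1 = a.2.1 + 1 at h1
      omega
    · exfalso
      change a.2.1 = b.2.1 + 1 at h1
      omega

/-- flat edge, `N → N` -/
lemma flat_NN (h0 : 1 ≤ a.2.1)
    (hlt : c ⬝ᵥ (Nc h (K + 1) k x a).1.x < c ⬝ᵥ (Nc h (K + 1) k x b).1.x) :
    Rel' c k K x y (Nc h (K + 1) k x a) (Nc h (K + 1) k x b) := by
  obtain ⟨-, -, -, F, F', hF, hF', -, -⟩ := hab
  have e1 := ha.dep.mx _ h0 le_rfl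
  have e2 := hb.dep.mx _ h0 hs.le
  have hT : (Nc h (K + 1) k x b).1.T = insert (K + 1) (b.1.T.erase (x a.2.1)) := by
    rw [hs]
    rfl
  have hT' : (Nc h (K + 1) k x a).1.T = insert (K + 1) (a.1.T.erase (x a.2.1)) := rfl
  refine ⟨hlt, ?_, ?_, F, F', ?_, ?_, fun h1 => ?_, fun h1 => ?_⟩
  · change a.2.1 - 1 ≤ b.2.1 - 1 + 1
    omega
  · change b.2.1 - 1 ≤ a.2.1 - 1 + 1
    omega
  · rw [hT, hT']
    exact sd_same ha.isV.notMem hF e2
  · rw [hT, hT']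
    exact sd_same hb.isV.notMem hF' e1
  · exfalso
    change b.2.1 - 1 = a.2.1 - 1 + 1 at h1
    omega
  · exfalso
    change a.2.1 - 1 = b.2.1 - 1 + 1 at h1
    omega

end flat

end Pool.Agent.H81.MPA
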