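import Mathlib

set_option autoImplicit false

/-!
Words of letters (depth, sign) and their growth: the combinatorial part of the asymptotic theorem
on monotone paths.
-/

namespace Pool.Agent.H81.MPA

/-- a letter: depth and sign -/
abbrev Lt := ℕ × Bool

/-- the sign pattern at level `t`, time `k` -/
def E (t k : ℕ) : Bool := if t % 2 = 0 then decide (k % 2 = 0) else decide (k % 4 < 2)

/-- the sign of the first direction of a letter at time `k` -/
def q (k : ℕ) (a : Lt) : Bool := a.2 == E a.1 k

/-- the lower child of a letter -/
def lo (k : ℕ) (a : Lt) : Lt := (a.1 - 1, q k a == E (a.1 - 1) k)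

/-- the lower child of `a` is used on the side of its successor `b` -/
def useR (k : ℕ) (a b : Lt) : Bool :=
  decide (1 ≤ a.1) && q k a && !(decide (a.1 ≤ b.1) && q k b)

/-- the lower child of `b` is used on the side of its predecessor `a` -/
def useL (k : ℕ) (a b : Lt) : Bool :=
  decide (1 ≤ b.1) && !(q k b) && !(decide (b.1 ≤ a.1) && !(q k a))

/-- the lower child of the first letter is used -/
def endL (k : ℕ) (a : Lt) : Bool := decide (1 ≤ a.1) && !(q k a)

/-- the lower child of the last letter is used -/
def endR (k : ℕ) (a : Lt) : Bool := decide (1 ≤ a.1) && q k a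

section
variable {α : Type*} (lt : α → Lt) (O N : α → α)

/-- the new items between two consecutive items -/
def gap (k : ℕ) (a b : α) : List α :=
  (if useR k (lt a) (lt b) then [N a] else []) ++ (if useL k (lt a) (lt b) then [N b] else [])

/-- the step, from the first item on -/
def go (k : ℕ) : α → List α → List α
  | a, [] => O a :: (if endR k (lt a) then [N a] else [])
  | a, b :: l => O a :: (gap lt N k a b ++ go k b l)

/-- the step -/
def stp (k : ℕ) : List α → List α
  | [] => []
  | a :: l => (if endL k (lt a) then [N a] else []) ++ go lt O N k a l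

end

/-- the gap of letters -/
abbrev gapW (k : ℕ) (a b : Lt) : List Lt := gap id (lo k) k a b

/-- the step on words -/
abbrev stpW (k : ℕ) (w : List Lt) : List Lt := stp id id (lo k) k w

section
variable {α : Type*} {lt : α → Lt} {O N : α → α}

lemma map_gap {k : ℕ} (hN : ∀ a, lt (N a) = lo k (lt a)) (a b : α) :
    (gap lt N k a b).map lt = gapW k (lt a) (lt b) := by
  simp only [gap, gapW, id]
  split_ifs <;> simp [hN]

lemma map_go {k : ℕ} (hO : ∀ a, lt (O a) = lt a) (hN : ∀ a, lt (N a) = lo k (lt a)) :
    ∀ (l : List α) (a : α), (go lt O N k a l).map lt = go id id (lo k) k (lt a) (l.map lt)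
  | [], a => by
    simp only [go, List.map_cons, List.map_nil, hO, id]
    split_ifs <;> simp [hN]
  | b :: l, a => by
    simp only [go, List.map_cons, List.map_append, hO, id, map_gap hN, map_go hO hN l b]

lemma map_stp {k : ℕ} (hO : ∀ a, lt (O a) = lt a) (hN : ∀ a, lt (N a) = lo k (lt a))
    (l : List α) : (stp lt O N k l).map lt = stpW k (l.map lt) := by
  cases l with
  | nil => rfl
  | cons a l =>
    simp only [stp, stpW, List.map_append, List.map_cons, map_go hO hN, id]
    split_ifs <;> simp [hN]

/-- chains through a step -/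
lemma chain_go {k : ℕ} {R S : α → α → Prop} {P : α → Prop}
    (h1 : ∀ a b, P a → P b → R a b → List.IsChain S (O a :: (gap lt N k a b ++ [O b])))
    (h2 : ∀ a, P a → endR k (lt a) = true → S (O a) (N a)) :
    ∀ (l : List α) (a : α), (∀ b ∈ a :: l, P b) → List.IsChain R (a :: l) →
      List.IsChain S (go lt O N k a l)
  | [], a, hP, _ => by
    simp only [go]
    split_ifs with h
    · exact List.isChain_pair.2 (h2 a (hP a List.mem_cons_self) h)
    · exact List.isChain_singleton _
  | b :: l, a, hP, hR => by
    rw [List.isChain_cons_cons] at hR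
    have e1 := h1 a b (hP a List.mem_cons_self)
      (hP b (List.mem_cons_of_mem a List.mem_cons_self)) hR.1
    have e2 := chain_go h1 h2 l b (fun c hc => hP c (List.mem_cons_of_mem a hc)) hR.2
    simp only [go]
    have e3 : ∃ X, go lt O N k b l = O b :: X := by
      cases l with
      | nil => exact ⟨_, rfl⟩
      | cons c l => exact ⟨_, rfl⟩
    obtain ⟨X, hX⟩ := e3
    rw [hX] at e2 ⊢
    rw [← List.cons_append]
    rw [← List.cons_append] at e1
    rw [List.isChain_append] at e1 ⊢
    refine ⟨e1.1, e2, ?_⟩
    intro x hx y hy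
    refine e1.2.2 x hx y ?_
    simpa using hy

lemma chain_stp {k : ℕ} {R S : α → α → Prop} {P : α → Prop}
    (h1 : ∀ a b, P a → P b → R a b → List.IsChain S (O a :: (gap lt N k a b ++ [O b])))
    (h2 : ∀ a, P a → endR k (lt a) = true → S (O a) (N a))
    (h3 : ∀ a, P a → endL k (lt a) = true → S (N a) (O a)) (l : List α)
    (hP : ∀ b ∈ l, P b) (hR : List.IsChain R l) : List.IsChain S (stp lt O N k l) := by
  cases l with
  | nil => exact List.isChain_nil
  | cons a l =>
    have e1 := chain_go h1 h2 l a hP hR
    simp only [stp]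
    split_ifs with h
    · have e3 : ∃ X, go lt O N k a l = O a :: X := by
        cases l with
        | nil => exact ⟨_, rfl⟩
        | cons c l => exact ⟨_, rfl⟩
      obtain ⟨X, hX⟩ := e3
      rw [hX] at e1 ⊢
      simp only [List.singleton_append]
      rw [List.isChain_cons_cons]
      exact ⟨h3 a (hP a List.mem_cons_self) h, e1⟩
    · simpa using e1

/-- members of a step -/
lemma mem_gap {k : ℕ} {a b x : α} (h : x ∈ gap lt N k a b) :
    (x = N a ∧ 1 ≤ (lt a).1) ∨ (x = N b ∧ 1 ≤ (lt b).1) := by
  simp only [gap, List.mem_append] at h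
  rcases h with h | h
  · left
    split_ifs at h with h1
    · simp only [useR, Bool.and_eq_true, decide_eq_true_eq] at h1
      exact ⟨by simpa using h, h1.1.1⟩
    · simp at h
  · right
    split_ifs at h with h1
    · simp only [useL, Bool.and_eq_true, decide_eq_true_eq] at h1
      exact ⟨by simpa using h, h1.1.1⟩
    · simp at h

lemma mem_go {k : ℕ} : ∀ (l : List α) (a x : α), x ∈ go lt O N k a l →
    ∃ b ∈ a :: l, x = O b ∨ (x = N b ∧ 1 ≤ (lt b).1)
  | [], a, x, h => by
    simp only [go, List.mem_cons] at h
    refine ⟨a, List.mem_cons_self, ?_⟩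
    rcases h with h | h
    · exact Or.inl h
    · right
      split_ifs at h with h1
      · simp only [endR, Bool.and_eq_true, decide_eq_true_eq] at h1
        exact ⟨by simpa using h, h1.1⟩
      · simp at h
  | b :: l, a, x, h => by
    simp only [go, List.mem_cons, List.mem_append] at h
    rcases h with h | h | h
    · exact ⟨a, List.mem_cons_self, Or.inl h⟩
    · rcases mem_gap h with h | h
      · exact ⟨a, List.mem_cons_self, Or.inr h⟩
      · exact ⟨b, List.mem_cons_of_mem a List.mem_cons_self, Or.inr h⟩
    · obtain ⟨c, hc, hx⟩ := mem_go l b x h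
      exact ⟨c, List.mem_cons_of_mem a hc, hx⟩

lemma mem_stp {k : ℕ} {l : List α} {x : α} (h : x ∈ stp lt O N k l) :
    ∃ b ∈ l, x = O b ∨ (x = N b ∧ 1 ≤ (lt b).1) := by
  cases l with
  | nil => simp [stp] at h
  | cons a l =>
    simp only [stp, List.mem_append] at h
    rcases h with h | h
    · refine ⟨a, List.mem_cons_self, Or.inr ?_⟩
      split_ifs at h with h1
      · simp only [endL, Bool.and_eq_true, decide_eq_true_eq] at h1
        exact ⟨by simpa using h, h1.1⟩
      · simp at h
    · exact mem_go l a x h

end

end Pool.Agent.H81.MPA
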