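import Pool.Agent.H81.MPA.Slope
import Pool.Agent.H81.MPA.Word

set_option autoImplicit false

/-!
Labels of the levels, vertex records with letters, and their children.
-/

namespace Pool.Agent.H81.MPA

open Matrix Filter Topology Pool.Agent.H81.MonoPath Pool.Agent.H81.MP5

variable {d : ℕ}

/-- the second label of the previous level, or the new label -/
def up (nw : ℕ) (y : ℕ → ℕ) (t : ℕ) : ℕ := if t ≤ 1 then nw else y (t - 1)

/-- first labels after the step at time `k` -/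
def nx (k nw : ℕ) (x y : ℕ → ℕ) (t : ℕ) : ℕ := if E t (k + 1) = E t k then x t else up nw y t

/-- second labels after the step at time `k` -/
def ny (k nw : ℕ) (x y : ℕ → ℕ) (t : ℕ) : ℕ := if E t (k + 1) = E t k then up nw y t else x t

variable {K m k t : ℕ} {x y : ℕ → ℕ}

lemma up_one (nw : ℕ) (y : ℕ → ℕ) : up nw y 1 = nw := by simp [up]

lemma up_succ (nw : ℕ) (y : ℕ → ℕ) (s : ℕ) : up nw y (s + 2) = y (s + 1) := by
  simp [up]

lemma RO.x_ne_up (hr : RO K m x y) {i j : ℕ} (hi : 1 ≤ i) (him : i ≤ m) (_hj : 1 ≤ j)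
    (hjm : j ≤ m) : x i ≠ up (K + 1) y j := by
  have h1 := hr.lx i hi him
  unfold up
  split_ifs with h
  · omega
  · exact hr.xy i (j - 1) hi him (by omega) (by omega)

lemma RO.up_inj (hr : RO K m x y) {i j : ℕ} (hi : 1 ≤ i) (him : i ≤ m) (hj : 1 ≤ j)
    (hjm : j ≤ m) (h : up (K + 1) y i = up (K + 1) y j) : i = j := by
  unfold up at h
  split_ifs at h with h1 h2 h2
  · omega
  · have := hr.ly (j - 1) (by omega) (by omega)
    omega
  · have := hr.ly (i - 1) (by omega) (by omega)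
    omega
  · have := hr.yy (i - 1) (j - 1) (by omega) (by omega) (by omega) (by omega) h
    omega

lemma RO.up_le (hr : RO K m x y) {i : ℕ} (him : i ≤ m) : up (K + 1) y i ≤ K + 1 := by
  unfold up
  split_ifs with h1
  · exact le_rfl
  · have := hr.ly (i - 1) (by omega) (by omega)
    omega

lemma RO.next (hr : RO K m x y) (k : ℕ) :
    RO (K + 1) m (nx k (K + 1) x y) (ny k (K + 1) x y) := by
  refine ⟨?_, ?_, ?_, ?_, ?_⟩
  · intro i hi him
    have h1 := hr.lx i hi him
    have h2 := hr.up_le him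
    unfold nx
    split_ifs <;> omega
  · intro i hi him
    have h1 := hr.lx i hi him
    have h2 := hr.up_le him
    unfold ny
    split_ifs <;> omega
  · intro i j hi him hj hjm h
    unfold nx at h
    split_ifs at h
    · exact hr.xx i j hi him hj hjm h
    · exact absurd h (hr.x_ne_up hi him hj hjm)
    · exact absurd h.symm (hr.x_ne_up hj hjm hi him)
    · exact hr.up_inj hi him hj hjm h
  · intro i j hi him hj hjm h
    unfold ny at h
    split_ifs at h
    · exact hr.up_inj hi him hj hjm h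
    · exact absurd h.symm (hr.x_ne_up hj hjm hi him)
    · exact absurd h (hr.x_ne_up hi him hj hjm)
    · exact hr.xx i j hi him hj hjm h
  · intro i j hi him hj hjm h
    unfold nx ny at h
    split_ifs at h with h1 h2 h2
    · exact hr.x_ne_up hi him hj hjm h
    · have := hr.xx i j hi him hj hjm h
      subst this
      exact h2 h1
    · have := hr.up_inj hi him hj hjm h
      subst this
      exact h1 h2
    · exact hr.x_ne_up hj hjm hi him h.symm

lemma mem_next {T : Finset ℕ} {i nw : ℕ} (h1 : x i ∈ T) (h2 : up nw y i ∈ T) :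
    nx k nw x y i ∈ T ∧ ny k nw x y i ∈ T := by
  unfold nx ny
  split_ifs
  · exact ⟨h1, h2⟩
  · exact ⟨h2, h1⟩

lemma out_next {T : Finset ℕ} {i nw : ℕ} (h : x i ∉ T ∨ up nw y i ∉ T) :
    nx k nw x y i ∉ T ∨ ny k nw x y i ∉ T := by
  unfold nx ny
  split_ifs
  · exact h
  · exact h.symm

/-- depth of the upper child -/
lemma Dep.upper {T : Finset ℕ} (hr : RO K m x y) (hd : Dep m x y T t) (ht : 1 ≤ t) (k : ℕ) :
    Dep m (nx k (K + 1) x y) (ny k (K + 1) x y) (insert (K + 1) (T.erase (y t))) t := by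
  have hle := hd.le
  have h1 : ∀ i, 1 ≤ i → i ≤ t → x i ∈ insert (K + 1) (T.erase (y t)) := by
    intro i hi hit
    refine Finset.mem_insert_of_mem (Finset.mem_erase.2 ⟨?_, hd.mx i hi hit⟩)
    exact hr.xy i t hi (by omega) ht hle
  have h2 : ∀ i, 1 ≤ i → i ≤ t → up (K + 1) y i ∈ insert (K + 1) (T.erase (y t)) := by
    intro i hi hit
    unfold up
    split_ifs with h
    · exact Finset.mem_insert_self _ _
    · refine Finset.mem_insert_of_mem (Finset.mem_erase.2 ⟨?_, hd.my (i - 1) (by omega)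
        (by omega)⟩)
      intro h0
      have := hr.yy (i - 1) t (by omega) (by omega) ht hle h0
      omega
  refine ⟨hle, fun i hi hit => (mem_next (h1 i hi hit) (h2 i hi hit)).1,
    fun i hi hit => (mem_next (h1 i hi hit) (h2 i hi hit)).2, fun htm => out_next (Or.inr ?_)⟩
  have h3 : up (K + 1) y (t + 1) = y t := by
    obtain ⟨s, rfl⟩ := Nat.exists_eq_add_of_le ht
    rw [show 1 + s + 1 = s + 2 by ring, up_succ, show s + 1 = 1 + s by ring]
  rw [h3]
  intro h0
  rcases Finset.mem_insert.1 h0 with h4 | h4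
  · have := hr.ly t ht hle
    omega
  · exact Finset.ne_of_mem_erase h4 rfl

/-- depth of the lower child -/
lemma Dep.lower {T : Finset ℕ} (hr : RO K m x y) (hd : Dep m x y T t) (ht : 1 ≤ t) (k : ℕ) :
    Dep m (nx k (K + 1) x y) (ny k (K + 1) x y) (insert (K + 1) (T.erase (x t))) (t - 1) := by
  have hle := hd.le
  have h1 : ∀ i, 1 ≤ i → i ≤ t - 1 → x i ∈ insert (K + 1) (T.erase (x t)) := by
    intro i hi hit
    refine Finset.mem_insert_of_mem (Finset.mem_erase.2 ⟨?_, hd.mx i hi (by omega)⟩)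
    intro h0
    have := hr.xx i t hi (by omega) ht hle h0
    omega
  have h2 : ∀ i, 1 ≤ i → i ≤ t - 1 → up (K + 1) y i ∈ insert (K + 1) (T.erase (x t)) := by
    intro i hi hit
    unfold up
    split_ifs with h
    · exact Finset.mem_insert_self _ _
    · refine Finset.mem_insert_of_mem (Finset.mem_erase.2 ⟨?_, hd.my (i - 1) (by omega)
        (by omega)⟩)
      exact (hr.xy t (i - 1) ht hle (by omega) (by omega)).symm
  refine ⟨by omega, fun i hi hit => (mem_next (h1 i hi hit) (h2 i hi hit)).1,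
    fun i hi hit => (mem_next (h1 i hi hit) (h2 i hi hit)).2, fun htm => out_next (Or.inl ?_)⟩
  rw [show t - 1 + 1 = t by omega]
  intro h0
  rcases Finset.mem_insert.1 h0 with h4 | h4
  · have := hr.lx t ht hle
    omega
  · exact Finset.ne_of_mem_erase h4 rfl

/-- depth zero stays -/
lemma Dep.zero {T : Finset ℕ} (hd : Dep m x y T 0) (hn : K + 1 ∉ T) (k : ℕ) :
    Dep m (nx k (K + 1) x y) (ny k (K + 1) x y) T 0 := by
  refine ⟨hd.le, fun i hi hit => by omega, fun i hi hit => by omega, fun htm => out_next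
    (Or.inr ?_)⟩
  rw [zero_add, up_one]
  exact hn

/-- signs -/
def sg (b : Bool) : ℝ := if b then 1 else -1

lemma sg_not (b : Bool) : sg (!b) = - sg b := by cases b <;> simp [sg]

/-- a record is a vertex with the right letter -/
structure Ok (H : ℕ → Form d) (K m k : ℕ) (x y : ℕ → ℕ) (c : Fin d → ℝ) (p : Vx d × Lt) :
    Prop where
  isV : IsV H K p.1
  dep : Dep m x y p.1.T p.2.1
  sx : 1 ≤ p.2.1 → 0 < sg (q k p.2) * (c ⬝ᵥ p.1.u (x p.2.1))
  sy : 1 ≤ p.2.1 → sg (q k p.2) * (c ⬝ᵥ p.1.u (y p.2.1)) < 0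

/-- the upper child -/
noncomputable def Oc (h : Form d) (nw : ℕ) (y : ℕ → ℕ) (p : Vx d × Lt) : Vx d × Lt :=
  if p.2.1 = 0 then p else (piv h nw p.1 (y p.2.1), p.2)

/-- the lower child -/
noncomputable def Nc (h : Form d) (nw k : ℕ) (x : ℕ → ℕ) (p : Vx d × Lt) : Vx d × Lt :=
  (piv h nw p.1 (x p.2.1), lo k p.2)

lemma Oc_lt (h : Form d) (nw : ℕ) (y : ℕ → ℕ) (p : Vx d × Lt) : (Oc h nw y p).2 = p.2 := by
  unfold Oc
  split_ifs <;> rfl

lemma Oc_pos {h : Form d} {nw : ℕ} {y : ℕ → ℕ} {p : Vx d × Lt} (hp : 1 ≤ p.2.1) :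
    Oc h nw y p = (piv h nw p.1 (y p.2.1), p.2) := by
  unfold Oc
  rw [if_neg (by omega)]

lemma Oc_zero {h : Form d} {nw : ℕ} {y : ℕ → ℕ} {p : Vx d × Lt} (hp : p.2.1 = 0) :
    Oc h nw y p = p := by
  unfold Oc
  rw [if_pos hp]

variable {H : ℕ → Form d} {c : Fin d → ℝ} {v : Vx d} {σ : ℝ}

/-- signs at the upper child -/
lemma signs_upper (hv : IsV H K v) (hr : RO K m x y) (hd : Dep m x y v.T t) (ht : 1 ≤ t)
    (hx : 0 < σ * (c ⬝ᵥ v.u (x t))) (hy : σ * (c ⬝ᵥ v.u (y t)) < 0) :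
    ∀ᶠ δ in 𝓝[>] (0 : ℝ),
      0 < σ * (c ⬝ᵥ (piv (W H x y δ m 0) (K + 1) v (y t)).u (x t)) ∧
      σ * (c ⬝ᵥ (piv (W H x y δ m 0) (K + 1) v (y t)).u (up (K + 1) y t)) < 0 := by
  have hle := hd.le
  have hxn : x t ≠ K + 1 := by
    have := hr.lx t ht hle
    omega
  have h1 := slope_same (nw := K + 1) hv hr hd ht (Or.inl rfl) (Or.inr rfl) hxn hx hy
  have hy' : 0 < (-σ) * (c ⬝ᵥ v.u (y t)) := by linarith
  have h2 : ∀ᶠ δ in 𝓝[>] (0 : ℝ),
      0 < (-σ) * (c ⬝ᵥ (piv (W H x y δ m 0) (K + 1) v (y t)).u (up (K + 1) y t)) := by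
    rcases Nat.lt_or_ge t 2 with h | h
    · obtain rfl : t = 1 := by omega
      rw [up_one]
      exact slope_new1 hv hr hd (Or.inr rfl) hy'
    · obtain ⟨s, rfl⟩ := Nat.exists_eq_add_of_le h
      rw [show 2 + s = s + 2 by ring] at hd hy' hle ⊢
      rw [up_succ]
      have hyn : y (s + 1) ≠ K + 1 := by
        have := hr.ly (s + 1) (by omega) (by omega)
        omega
      exact slope_m1 hv hr hd (Or.inr rfl) (Or.inr rfl) hyn hy'
  filter_upwards [h1, h2] with δ e1 e2
  exact ⟨e1, by linarith⟩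

/-- signs at the lower child -/
lemma signs_lower (hv : IsV H K v) (hr : RO K m x y) (hd : Dep m x y v.T t) (ht : 2 ≤ t)
    (hx : 0 < σ * (c ⬝ᵥ v.u (x t))) :
    ∀ᶠ δ in 𝓝[>] (0 : ℝ),
      0 < σ * (c ⬝ᵥ (piv (W H x y δ m 0) (K + 1) v (x t)).u (x (t - 1))) ∧
      σ * (c ⬝ᵥ (piv (W H x y δ m 0) (K + 1) v (x t)).u (up (K + 1) y (t - 1))) < 0 := by
  have hle := hd.le
  obtain ⟨s, rfl⟩ := Nat.exists_eq_add_of_le ht
  rw [show 2 + s = s + 2 by ring] at hd hx hle ⊢
  rw [show s + 2 - 1 = s + 1 by omega]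
  have hxn : x (s + 1) ≠ K + 1 := by
    have := hr.lx (s + 1) (by omega) (by omega)
    omega
  have h1 := slope_m1 hv hr hd (Or.inl rfl) (Or.inl rfl) hxn hx
  have h2 : ∀ᶠ δ in 𝓝[>] (0 : ℝ),
      σ * (c ⬝ᵥ (piv (W H x y δ m 0) (K + 1) v (x (s + 2))).u (up (K + 1) y (s + 1))) < 0 := by
    cases s with
    | zero =>
      rw [zero_add, up_one]
      exact slope_new2 hv hr hd (Or.inl rfl) hx
    | succ s =>
      rw [show s + 1 + 1 = s + 2 by ring, up_succ]
      have hyn : y (s + 1) ≠ K + 1 := by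
        have := hr.ly (s + 1) (by omega) (by omega)
        omega
      exact slope_m2 hv hr hd (Or.inr rfl) (Or.inl rfl) hyn hx
  filter_upwards [h1, h2] with δ e1 e2
  exact ⟨e1, e2⟩

lemma q_same {a : Lt} (h : E a.1 (k + 1) = E a.1 k) : q (k + 1) a = q k a := by
  simp only [q, h]

lemma q_flip {a : Lt} (h : E a.1 (k + 1) ≠ E a.1 k) : q (k + 1) a = !(q k a) := by
  simp only [q]
  revert h
  cases a.2 <;> cases E a.1 (k + 1) <;> cases E a.1 k <;> simp

lemma q_lo_same {a : Lt} (h : E (a.1 - 1) (k + 1) = E (a.1 - 1) k) :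
    q (k + 1) (lo k a) = q k a := by
  simp only [lo, q] at *
  rw [h]
  cases (a.2 == E a.1 k) <;> cases E (a.1 - 1) k <;> rfl

lemma q_lo_flip {a : Lt} (h : E (a.1 - 1) (k + 1) ≠ E (a.1 - 1) k) :
    q (k + 1) (lo k a) = !(q k a) := by
  simp only [lo, q] at *
  revert h
  cases (a.2 == E a.1 k) <;> cases E (a.1 - 1) (k + 1) <;> cases E (a.1 - 1) k <;> simp

/-- the upper child is fine -/
lemma Ok_upper {p : Vx d × Lt} (hp : Ok H K m k x y c p) (hr : RO K m x y) :
    ∀ᶠ δ in 𝓝[>] (0 : ℝ), Ok (upd H K (W H x y δ m 0)) (K + 1) m (k + 1)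
      (nx k (K + 1) x y) (ny k (K + 1) x y) c (Oc (W H x y δ m 0) (K + 1) y p) := by
  obtain ⟨v, t, r⟩ := p
  obtain ⟨hv, hd, hsx, hsy⟩ := hp
  change IsV H K v at hv
  change Dep m x y v.T t at hd
  rcases Nat.eq_zero_or_pos t with h0 | ht
  · subst h0
    filter_upwards [keep_eventually hv hr hd] with δ e1
    rw [Oc_zero rfl]
    exact ⟨hv.keep _ e1, hd.zero hv.notMem k, fun h => absurd h (by simp),
      fun h => absurd h (by simp)⟩
  · have hx := hsx ht
    have hy := hsy ht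
    filter_upwards [near_eventually hv hr hd ht (Or.inr rfl), signs_upper hv hr hd ht hx hy] with
      δ e1 e2
    rw [Oc_pos (p := (v, t, r)) ht]
    refine ⟨hv.piv _ _ (hd.my t ht le_rfl) e1.1 e1.2, hd.upper hr ht k, fun _ => ?_, fun _ => ?_⟩
    · change 0 < sg (q (k + 1) (t, r)) *
        (c ⬝ᵥ (piv (W H x y δ m 0) (K + 1) v (y t)).u (nx k (K + 1) x y t))
      by_cases hE : E t (k + 1) = E t k
      · rw [q_same hE, nx, if_pos hE]
        exact e2.1
      · rw [q_flip hE, nx, if_neg hE, sg_not]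
        have := e2.2
        change sg (q k (t, r)) * _ < 0 at this
        linarith
    · change sg (q (k + 1) (t, r)) *
        (c ⬝ᵥ (piv (W H x y δ m 0) (K + 1) v (y t)).u (ny k (K + 1) x y t)) < 0
      by_cases hE : E t (k + 1) = E t k
      · rw [q_same hE, ny, if_pos hE]
        exact e2.2
      · rw [q_flip hE, ny, if_neg hE, sg_not]
        have := e2.1
        change 0 < sg (q k (t, r)) * _ at this
        linarith

/-- the lower child is fine -/
lemma Ok_lower {p : Vx d × Lt} (hp : Ok H K m k x y c p) (hr : RO K m x y) (ht : 1 ≤ p.2.1) :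
    ∀ᶠ δ in 𝓝[>] (0 : ℝ), Ok (upd H K (W H x y δ m 0)) (K + 1) m (k + 1)
      (nx k (K + 1) x y) (ny k (K + 1) x y) c (Nc (W H x y δ m 0) (K + 1) k x p) := by
  obtain ⟨v, t, r⟩ := p
  obtain ⟨hv, hd, hsx, hsy⟩ := hp
  change IsV H K v at hv
  change Dep m x y v.T t at hd
  change 1 ≤ t at ht
  have hx := hsx ht
  change 0 < sg (q k (t, r)) * (c ⬝ᵥ v.u (x t)) at hx
  rcases Nat.lt_or_ge t 2 with h2 | h2
  · obtain rfl : t = 1 := by omega
    filter_upwards [near_eventually hv hr hd ht (Or.inl rfl)] with δ e1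
    exact ⟨hv.piv _ _ (hd.mx 1 ht le_rfl) e1.1 e1.2, hd.lower hr ht k,
      fun h => absurd h (by simp [Nc, lo]), fun h => absurd h (by simp [Nc, lo])⟩
  · filter_upwards [near_eventually hv hr hd ht (Or.inl rfl), signs_lower hv hr hd h2 hx] with
      δ e1 e2
    refine ⟨hv.piv _ _ (hd.mx t ht le_rfl) e1.1 e1.2, hd.lower hr ht k, fun _ => ?_, fun _ => ?_⟩
    · change 0 < sg (q (k + 1) (lo k (t, r))) *
        (c ⬝ᵥ (piv (W H x y δ m 0) (K + 1) v (x t)).u (nx k (K + 1) x y (t - 1)))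
      by_cases hE : E (t - 1) (k + 1) = E (t - 1) k
      · rw [q_lo_same (a := (t, r)) hE, nx, if_pos hE]
        exact e2.1
      · rw [q_lo_flip (a := (t, r)) hE, nx, if_neg hE, sg_not]
        have := e2.2
        linarith
    · change sg (q (k + 1) (lo k (t, r))) *
        (c ⬝ᵥ (piv (W H x y δ m 0) (K + 1) v (x t)).u (ny k (K + 1) x y (t - 1))) < 0
      by_cases hE : E (t - 1) (k + 1) = E (t - 1) k
      · rw [q_lo_same (a := (t, r)) hE, ny, if_pos hE]
        exact e2.2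
      · rw [q_lo_flip (a := (t, r)) hE, ny, if_neg hE, sg_not]
        have := e2.1
        linarith

end Pool.Agent.H81.MPA
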