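import Pool.Agent.H81.MPA.Cut

set_option autoImplicit false

/-!
Slopes at the new vertices.
-/

namespace Pool.Agent.H81.MPA

open Matrix Filter Topology Pool.Agent.H81.MonoPath Pool.Agent.H81.MP5

variable {d : ℕ} {H : ℕ → Form d} {x y : ℕ → ℕ} {K m t : ℕ} {v : Vx d}

lemma aux1 (a : ℝ) {b : ℝ} (hb : 0 < b) {f : ℝ → ℝ} (hf : Tendsto f (𝓝[>] 0) (𝓝 1)) :
    ∀ᶠ δ in 𝓝[>] (0 : ℝ), 0 < a + b * (f δ / δ) := by
  have h1 : Tendsto (fun δ : ℝ => δ * a + b * f δ) (𝓝[>] 0) (𝓝 (0 * a + b * 1)) :=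
    (tend_id.mul_const a).add (hf.const_mul b)
  rw [zero_mul, zero_add, mul_one] at h1
  filter_upwards [h1.eventually (lt_mem_nhds hb), self_mem_nhdsWithin] with δ e1 e2
  have e3 : (0 : ℝ) < δ := e2
  have : a + b * (f δ / δ) = (δ * a + b * f δ) / δ := by field_simp
  rw [this]
  exact div_pos e1 e3

lemma aux2 (a : ℝ) {b : ℝ} (hb : 0 < b) {f : ℝ → ℝ} (hf : Tendsto f (𝓝[>] 0) (𝓝 1)) :
    ∀ᶠ δ in 𝓝[>] (0 : ℝ), a - b * (f δ / δ ^ 2) < 0 := by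
  have h1 : Tendsto (fun δ : ℝ => δ ^ 2 * a - b * f δ) (𝓝[>] 0) (𝓝 (0 ^ 2 * a - b * 1)) :=
    ((tend_id.pow 2).mul_const a).sub (hf.const_mul b)
  rw [zero_pow two_ne_zero, zero_mul, zero_sub, mul_one] at h1
  have hb' : -b < 0 := by linarith
  filter_upwards [h1.eventually (gt_mem_nhds hb'), self_mem_nhdsWithin] with δ e1 e2
  have e3 : (0 : ℝ) < δ := e2
  have : a - b * (f δ / δ ^ 2) = (δ ^ 2 * a - b * f δ) / δ ^ 2 := by field_simp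
  rw [this]
  exact div_neg_of_neg_of_pos e1 (by positivity)

lemma ratio_tendsto (i j F l : ℕ) :
    Tendsto (fun δ => kf H x y m v i F δ / kf H x y m v j l δ) (𝓝[>] 0) (𝓝 1) := by
  have := (kf_tendsto (H := H) (x := x) (y := y) (m := m) (v := v) i F).div
    (kf_tendsto (H := H) (x := x) (y := y) (m := m) (v := v) j l) one_ne_zero
  rwa [div_one] at this

lemma kf_ne (t l : ℕ) : ∀ᶠ δ in 𝓝[>] (0 : ℝ), kf H x y m v t l δ ≠ 0 := by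
  filter_upwards [(kf_tendsto (H := H) (x := x) (y := y) (m := m) (v := v) t l).eventually
        (lt_mem_nhds one_pos)] with δ e1
  exact e1.ne'

variable {c : Fin d → ℝ} {σ : ℝ} {nw : ℕ}

/-- slope of a direction of the same level -/
lemma slope_same (hv : IsV H K v) (hr : RO K m x y) (hd : Dep m x y v.T t) (ht : 1 ≤ t)
    {F l : ℕ} (hF : F = x t ∨ F = y t) (hl : l = x t ∨ l = y t) (hn : F ≠ nw)
    (h1 : 0 < σ * (c ⬝ᵥ v.u F)) (h2 : σ * (c ⬝ᵥ v.u l) < 0) :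
    ∀ᶠ δ in 𝓝[>] (0 : ℝ), 0 < σ * (c ⬝ᵥ (piv (W H x y δ m 0) nw v l).u F) := by
  have e1 : Tendsto (fun δ => σ * (c ⬝ᵥ v.u F) -
      kf H x y m v t F δ / kf H x y m v t l δ * (σ * (c ⬝ᵥ v.u l))) (𝓝[>] 0)
      (𝓝 (σ * (c ⬝ᵥ v.u F) - 1 * (σ * (c ⬝ᵥ v.u l)))) :=
    ((ratio_tendsto t t F l).mul_const _).const_sub _
  have e2 : 0 < σ * (c ⬝ᵥ v.u F) - 1 * (σ * (c ⬝ᵥ v.u l)) := by linarith
  filter_upwards [e1.eventually (lt_mem_nhds e2), kf_ne (H := H) (x := x) (y := y) (m := m)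
    (v := v) t l, self_mem_nhdsWithin] with δ e3 e4 e5
  rw [dot_piv_u _ _ _ _ _ _ hn, D_dep hv hr hd ht le_rfl hF, D_dep hv hr hd ht le_rfl hl]
  have e6 : ((-δ) ^ (t - 1) : ℝ) ≠ 0 := pow_ne_zero _ (by
    have : (0 : ℝ) < δ := e5
    linarith)
  have e7 : σ * (c ⬝ᵥ v.u F - (-δ) ^ (t - 1) * kf H x y m v t F δ *
      (c ⬝ᵥ v.u l / ((-δ) ^ (t - 1) * kf H x y m v t l δ))) = σ * (c ⬝ᵥ v.u F) -
      kf H x y m v t F δ / kf H x y m v t l δ * (σ * (c ⬝ᵥ v.u l)) := by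
    field_simp
  rw [e7]
  exact e3

/-- slope of a direction of the level just above -/
lemma slope_m1 (hv : IsV H K v) (hr : RO K m x y) (hd : Dep m x y v.T (t + 2))
    {F l : ℕ} (hF : F = x (t + 1) ∨ F = y (t + 1)) (hl : l = x (t + 2) ∨ l = y (t + 2))
    (hn : F ≠ nw) (h2 : 0 < σ * (c ⬝ᵥ v.u l)) :
    ∀ᶠ δ in 𝓝[>] (0 : ℝ), 0 < σ * (c ⬝ᵥ (piv (W H x y δ m 0) nw v l).u F) := by
  filter_upwards [aux1 (σ * (c ⬝ᵥ v.u F)) h2 (ratio_tendsto (H := H) (x := x) (y := y) (m := m)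
    (v := v) (t + 1) (t + 2) F l), kf_ne (H := H) (x := x) (y := y) (m := m)
    (v := v) (t + 2) l, self_mem_nhdsWithin] with δ e3 e4 e5
  rw [dot_piv_u _ _ _ _ _ _ hn, D_dep hv hr hd (by omega) (by omega) hF,
    D_dep hv hr hd (by omega) le_rfl hl]
  have e0 : (0 : ℝ) < δ := e5
  have e6 : ((-δ) ^ t : ℝ) ≠ 0 := pow_ne_zero _ (by linarith)
  rw [show t + 1 - 1 = t by omega, show t + 2 - 1 = t + 1 by omega, pow_succ]
  have e7 : σ * (c ⬝ᵥ v.u F - (-δ) ^ t * kf H x y m v (t + 1) F δ *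
      (c ⬝ᵥ v.u l / ((-δ) ^ t * -δ * kf H x y m v (t + 2) l δ))) = σ * (c ⬝ᵥ v.u F) +
      σ * (c ⬝ᵥ v.u l) * (kf H x y m v (t + 1) F δ / kf H x y m v (t + 2) l δ / δ) := by
    field_simp
    ring
  rw [e7]
  exact e3

/-- slope of a direction two levels above -/
lemma slope_m2 (hv : IsV H K v) (hr : RO K m x y) (hd : Dep m x y v.T (t + 3))
    {F l : ℕ} (hF : F = x (t + 1) ∨ F = y (t + 1)) (hl : l = x (t + 3) ∨ l = y (t + 3))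
    (hn : F ≠ nw) (h2 : 0 < σ * (c ⬝ᵥ v.u l)) :
    ∀ᶠ δ in 𝓝[>] (0 : ℝ), σ * (c ⬝ᵥ (piv (W H x y δ m 0) nw v l).u F) < 0 := by
  filter_upwards [aux2 (σ * (c ⬝ᵥ v.u F)) h2 (ratio_tendsto (H := H) (x := x) (y := y) (m := m)
    (v := v) (t + 1) (t + 3) F l), kf_ne (H := H) (x := x) (y := y) (m := m)
    (v := v) (t + 3) l, self_mem_nhdsWithin] with δ e3 e4 e5
  rw [dot_piv_u _ _ _ _ _ _ hn, D_dep hv hr hd (by omega) (by omega) hF,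
    D_dep hv hr hd (by omega) le_rfl hl]
  have e0 : (0 : ℝ) < δ := e5
  have e6 : ((-δ) ^ t : ℝ) ≠ 0 := pow_ne_zero _ (by linarith)
  rw [show t + 1 - 1 = t by omega, show t + 3 - 1 = t + 2 by omega, pow_add]
  have e7 : σ * (c ⬝ᵥ v.u F - (-δ) ^ t * kf H x y m v (t + 1) F δ *
      (c ⬝ᵥ v.u l / ((-δ) ^ t * (-δ) ^ 2 * kf H x y m v (t + 3) l δ))) = σ * (c ⬝ᵥ v.u F) -
      σ * (c ⬝ᵥ v.u l) * (kf H x y m v (t + 1) F δ / kf H x y m v (t + 3) l δ / δ ^ 2) := by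
    rw [show ((-δ) ^ 2 : ℝ) = δ ^ 2 by ring]
    field_simp
  rw [e7]
  exact e3

lemma piv_u_new (h : Form d) (l : ℕ) : c ⬝ᵥ (piv h nw v l).u nw =
    (c ⬝ᵥ v.u l) / D h (v.u l) := by
  change c ⬝ᵥ (if nw = nw then (D h (v.u l))⁻¹ • v.u l
    else v.u nw - (D h (v.u nw) / D h (v.u l)) • v.u l) = _
  rw [if_pos rfl, dotProduct_smul, smul_eq_mul]
  ring

/-- slope of the new direction, depth one -/
lemma slope_new1 (hv : IsV H K v) (hr : RO K m x y) (hd : Dep m x y v.T 1)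
    {l : ℕ} (hl : l = x 1 ∨ l = y 1) (h2 : 0 < σ * (c ⬝ᵥ v.u l)) :
    ∀ᶠ δ in 𝓝[>] (0 : ℝ), 0 < σ * (c ⬝ᵥ (piv (W H x y δ m 0) nw v l).u nw) := by
  filter_upwards [(kf_tendsto (H := H) (x := x) (y := y) (m := m) (v := v) 1 l).eventually
        (lt_mem_nhds one_pos)] with δ e1
  rw [piv_u_new, D_dep hv hr hd le_rfl le_rfl hl, Nat.sub_self, pow_zero, one_mul,
    ← mul_div_assoc]
  exact div_pos h2 e1

/-- slope of the new direction, depth two -/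
lemma slope_new2 (hv : IsV H K v) (hr : RO K m x y) (hd : Dep m x y v.T 2)
    {l : ℕ} (hl : l = x 2 ∨ l = y 2) (h2 : 0 < σ * (c ⬝ᵥ v.u l)) :
    ∀ᶠ δ in 𝓝[>] (0 : ℝ), σ * (c ⬝ᵥ (piv (W H x y δ m 0) nw v l).u nw) < 0 := by
  filter_upwards [(kf_tendsto (H := H) (x := x) (y := y) (m := m) (v := v) 2 l).eventually
        (lt_mem_nhds one_pos), self_mem_nhdsWithin] with δ e1 e2
  have e0 : (0 : ℝ) < δ := e2
  rw [piv_u_new, D_dep hv hr hd (by omega) le_rfl hl, show 2 - 1 = 1 from rfl, pow_one,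
    ← mul_div_assoc]
  refine div_neg_of_pos_of_neg h2 ?_
  nlinarith

end Pool.Agent.H81.MPA
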