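import Pool.Agent.H81.MPA.Link
import Pool.Agent.H81.MP5.Step

set_option autoImplicit false

/-!
The inductive step in every dimension.
-/

namespace Pool.Agent.H81.MPA

open Matrix Filter Topology Pool.Agent.H81.MonoPath Pool.Agent.H81.MP5

variable {d : ℕ} {K m k : ℕ} {x y : ℕ → ℕ} {H : ℕ → Form d} {c : Fin d → ℝ}

/-- displacements are positive -/
def Tau (h : Form d) (x y : ℕ → ℕ) (p : Vx d × Lt) : Prop :=
  1 ≤ p.2.1 → 0 < -(ev h p.1.x) / D h (p.1.u (x p.2.1)) ∧
    0 < -(ev h p.1.x) / D h (p.1.u (y p.2.1))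

/-- order of the children of consecutive records -/
def Ord (c : Fin d → ℝ) (h : Form d) (K k : ℕ) (x y : ℕ → ℕ) (a b : Vx d × Lt) : Prop :=
  c ⬝ᵥ (Oc h (K + 1) y a).1.x < c ⬝ᵥ (Oc h (K + 1) y b).1.x ∧
  (1 ≤ a.2.1 → c ⬝ᵥ (Nc h (K + 1) k x a).1.x < c ⬝ᵥ (Oc h (K + 1) y b).1.x) ∧
  (1 ≤ b.2.1 → c ⬝ᵥ (Oc h (K + 1) y a).1.x < c ⬝ᵥ (Nc h (K + 1) k x b).1.x) ∧
  (1 ≤ a.2.1 → 1 ≤ b.2.1 → c ⬝ᵥ (Nc h (K + 1) k x a).1.x < c ⬝ᵥ (Nc h (K + 1) k x b).1.x)

lemma Oc_tendsto {p : Vx d × Lt} (hp : Ok H K m k x y c p) (hr : RO K m x y) :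
    Tendsto (fun δ : ℝ => c ⬝ᵥ (Oc (W H x y δ m 0) (K + 1) y p).1.x) (𝓝[>] 0)
      (𝓝 (c ⬝ᵥ p.1.x)) := by
  rcases Nat.eq_zero_or_pos p.2.1 with h0 | h0
  · simp only [Oc_zero h0]
    exact tendsto_const_nhds
  · simp only [Oc_pos (show 1 ≤ p.2.1 from h0)]
    exact piv_tendsto hp.isV hr hp.dep h0 (Or.inr rfl) c (K + 1)

lemma Nc_tendsto {p : Vx d × Lt} (hp : Ok H K m k x y c p) (hr : RO K m x y) (h0 : 1 ≤ p.2.1) :
    Tendsto (fun δ : ℝ => c ⬝ᵥ (Nc (W H x y δ m 0) (K + 1) k x p).1.x) (𝓝[>] 0)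
      (𝓝 (c ⬝ᵥ p.1.x)) :=
  piv_tendsto hp.isV hr hp.dep h0 (Or.inl rfl) c (K + 1)

lemma Ord_eventually {a b : Vx d × Lt} (ha : Ok H K m k x y c a) (hb : Ok H K m k x y c b)
    (hr : RO K m x y) (hlt : c ⬝ᵥ a.1.x < c ⬝ᵥ b.1.x) :
    ∀ᶠ δ in 𝓝[>] (0 : ℝ), Ord c (W H x y δ m 0) K k x y a b := by
  have h1 := (Oc_tendsto ha hr).eventually_lt (Oc_tendsto hb hr) hlt
  have h2 : ∀ᶠ δ in 𝓝[>] (0 : ℝ), 1 ≤ a.2.1 → c ⬝ᵥ (Nc (W H x y δ m 0) (K + 1) k x a).1.x <
      c ⬝ᵥ (Oc (W H x y δ m 0) (K + 1) y b).1.x := by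
    by_cases h : 1 ≤ a.2.1
    · filter_upwards [(Nc_tendsto ha hr h).eventually_lt (Oc_tendsto hb hr) hlt] with δ e1 _
      exact e1
    · exact Eventually.of_forall (fun _ h' => absurd h' h)
  have h3 : ∀ᶠ δ in 𝓝[>] (0 : ℝ), 1 ≤ b.2.1 → c ⬝ᵥ (Oc (W H x y δ m 0) (K + 1) y a).1.x <
      c ⬝ᵥ (Nc (W H x y δ m 0) (K + 1) k x b).1.x := by
    by_cases h : 1 ≤ b.2.1
    · filter_upwards [(Oc_tendsto ha hr).eventually_lt (Nc_tendsto hb hr h) hlt] with δ e1 _
      exact e1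
    · exact Eventually.of_forall (fun _ h' => absurd h' h)
  have h4 : ∀ᶠ δ in 𝓝[>] (0 : ℝ), 1 ≤ a.2.1 → 1 ≤ b.2.1 →
      c ⬝ᵥ (Nc (W H x y δ m 0) (K + 1) k x a).1.x <
      c ⬝ᵥ (Nc (W H x y δ m 0) (K + 1) k x b).1.x := by
    by_cases h : 1 ≤ a.2.1
    · by_cases h' : 1 ≤ b.2.1
      · filter_upwards [(Nc_tendsto ha hr h).eventually_lt (Nc_tendsto hb hr h') hlt] with
          δ e1 _ _
        exact e1
      · exact Eventually.of_forall (fun _ _ h'' => absurd h'' h')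
    · exact Eventually.of_forall (fun _ h' => absurd h' h)
  filter_upwards [h1, h2, h3, h4] with δ e1 e2 e3 e4
  exact ⟨e1, e2, e3, e4⟩

lemma Tau_eventually {p : Vx d × Lt} (hp : Ok H K m k x y c p) (hr : RO K m x y) :
    ∀ᶠ δ in 𝓝[>] (0 : ℝ), Tau (W H x y δ m 0) x y p := by
  by_cases h : 1 ≤ p.2.1
  · filter_upwards [near_eventually hp.isV hr hp.dep h (Or.inl rfl),
      near_eventually hp.isV hr hp.dep h (Or.inr rfl)] with δ e1 e2 _
    exact ⟨e1.1, e2.1⟩
  · exact Eventually.of_forall (fun _ h' => absurd h' h)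

variable {h : Form d}

lemma inner_F {a : Vx d × Lt} (ha : Ok H K m k x y c a) (hτ : Tau h x y a) (ht : 1 ≤ a.2.1)
    (hq : q k a.2 = false) :
    c ⬝ᵥ (Nc h (K + 1) k x a).1.x < c ⬝ᵥ (Oc h (K + 1) y a).1.x := by
  have h1 := ha.sx ht
  have h2 := ha.sy ht
  obtain ⟨t1, t2⟩ := hτ ht
  rw [hq] at h1 h2
  simp only [sg, Bool.false_eq_true, if_false] at h1 h2
  rw [Oc_pos ht]
  change c ⬝ᵥ (piv h (K + 1) a.1 (x a.2.1)).x < c ⬝ᵥ (piv h (K + 1) a.1 (y a.2.1)).x
  rw [dot_piv, dot_piv]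
  have e1 : -(ev h a.1.x) * ((c ⬝ᵥ a.1.u (x a.2.1)) / D h (a.1.u (x a.2.1))) =
      -(ev h a.1.x) / D h (a.1.u (x a.2.1)) * (c ⬝ᵥ a.1.u (x a.2.1)) := by ring
  have e2 : -(ev h a.1.x) * ((c ⬝ᵥ a.1.u (y a.2.1)) / D h (a.1.u (y a.2.1))) =
      -(ev h a.1.x) / D h (a.1.u (y a.2.1)) * (c ⬝ᵥ a.1.u (y a.2.1)) := by ring
  rw [e1, e2]
  have e3 := mul_neg_of_pos_of_neg t1 (show c ⬝ᵥ a.1.u (x a.2.1) < 0 by linarith)
  have e4 := mul_pos t2 (show 0 < c ⬝ᵥ a.1.u (y a.2.1) by linarith)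
  linarith

lemma inner_T {a : Vx d × Lt} (ha : Ok H K m k x y c a) (hτ : Tau h x y a) (ht : 1 ≤ a.2.1)
    (hq : q k a.2 = true) :
    c ⬝ᵥ (Oc h (K + 1) y a).1.x < c ⬝ᵥ (Nc h (K + 1) k x a).1.x := by
  have h1 := ha.sx ht
  have h2 := ha.sy ht
  obtain ⟨t1, t2⟩ := hτ ht
  rw [hq] at h1 h2
  simp only [sg, if_true] at h1 h2
  rw [Oc_pos ht]
  change c ⬝ᵥ (piv h (K + 1) a.1 (y a.2.1)).x < c ⬝ᵥ (piv h (K + 1) a.1 (x a.2.1)).x
  rw [dot_piv, dot_piv]
  have e1 : -(ev h a.1.x) * ((c ⬝ᵥ a.1.u (x a.2.1)) / D h (a.1.u (x a.2.1))) =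
      -(ev h a.1.x) / D h (a.1.u (x a.2.1)) * (c ⬝ᵥ a.1.u (x a.2.1)) := by ring
  have e2 : -(ev h a.1.x) * ((c ⬝ᵥ a.1.u (y a.2.1)) / D h (a.1.u (y a.2.1))) =
      -(ev h a.1.x) / D h (a.1.u (y a.2.1)) * (c ⬝ᵥ a.1.u (y a.2.1)) := by ring
  rw [e1, e2]
  have e3 := mul_pos t1 (show 0 < c ⬝ᵥ a.1.u (x a.2.1) by linarith)
  have e4 := mul_neg_of_pos_of_neg t2 (show c ⬝ᵥ a.1.u (y a.2.1) < 0 by linarith)
  linarith

/-- the children of two consecutive records form a chain -/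
lemma chain_pair (hr : RO K m x y) (a b : Vx d × Lt)
    (ha : Ok H K m k x y c a ∧ Tau h x y a) (hb : Ok H K m k x y c b ∧ Tau h x y b)
    (hab : Rel c k x y a b ∧ Ord c h K k x y a b) :
    List.IsChain (Rel' c k K x y) (Oc h (K + 1) y a ::
      (gap Prod.snd (Nc h (K + 1) k x) k a b ++ [Oc h (K + 1) y b])) := by
  obtain ⟨ha, hτa⟩ := ha
  obtain ⟨hb, hτb⟩ := hb
  obtain ⟨hrel, hOO, hNO, hON, hNN⟩ := hab
  have hd1 := hrel.2.1
  have hd2 := hrel.2.2.1
  rcases Nat.lt_trichotomy a.2.1 b.2.1 with hlt | heq | hgt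
  · have hs : b.2.1 = a.2.1 + 1 := by omega
    have hbt : 1 ≤ b.2.1 := by omega
    cases hqb : q k b.2 with
    | true =>
      have hg : gap Prod.snd (Nc h (K + 1) k x) k a b = [] := by
        simp [gap, useR, useL, hqb, hs]
      rw [hg]
      simp only [List.nil_append, List.isChain_cons_cons, List.isChain_singleton, and_true]
      exact up_OO ha hb hrel hs hqb hOO
    | false =>
      have l1 := link_NO hb hr hbt hqb (inner_F hb hτb hbt hqb)
      by_cases hc : 1 ≤ a.2.1 ∧ q k a.2 = true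
      · have hg : gap Prod.snd (Nc h (K + 1) k x) k a b =
            [Nc h (K + 1) k x a, Nc h (K + 1) k x b] := by
          simp [gap, useR, useL, hqb, hs, hc.1, hc.2]
        rw [hg]
        simp only [List.cons_append, List.nil_append, List.isChain_cons_cons,
          List.isChain_singleton, and_true]
        exact ⟨link_ON ha hr hc.1 hc.2 (inner_T ha hτa hc.1 hc.2),
          up_NN ha hb hrel hs hc.1 hqb (hNN hc.1 hbt), l1⟩
      · have hR : useR k a.2 b.2 = false := by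
          rw [not_and_or] at hc
          rcases hc with hc | hc
          · simp [useR, hc]
          · simp [useR, hc]
        have hg : gap Prod.snd (Nc h (K + 1) k x) k a b = [Nc h (K + 1) k x b] := by
          simp [gap, hR, useL, hqb, hs]
        rw [hg]
        simp only [List.cons_append, List.nil_append, List.isChain_cons_cons,
          List.isChain_singleton, and_true]
        exact ⟨up_ON ha hb hrel hs hqb (hON hbt), l1⟩
  · cases hqa : q k a.2 with
    | false =>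
      have hg : gap Prod.snd (Nc h (K + 1) k x) k a b = [] := by
        simp [gap, useR, useL, hqa, heq]
      rw [hg]
      simp only [List.nil_append, List.isChain_cons_cons, List.isChain_singleton, and_true]
      exact flat_OO ha hb hrel heq hOO
    | true =>
      by_cases hc : 1 ≤ a.2.1 ∧ q k b.2 = false
      · have hbt : 1 ≤ b.2.1 := heq ▸ hc.1
        have hg : gap Prod.snd (Nc h (K + 1) k x) k a b =
            [Nc h (K + 1) k x a, Nc h (K + 1) k x b] := by
          simp [gap, useR, useL, hqa, hc.2, heq, hbt]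
        rw [hg]
        simp only [List.cons_append, List.nil_append, List.isChain_cons_cons,
          List.isChain_singleton, and_true]
        exact ⟨link_ON ha hr hc.1 hqa (inner_T ha hτa hc.1 hqa),
          flat_NN ha hb hrel heq hc.1 (hNN hc.1 hbt),
          link_NO hb hr hbt hc.2 (inner_F hb hτb hbt hc.2)⟩
      · have hg : gap Prod.snd (Nc h (K + 1) k x) k a b = [] := by
          rw [not_and_or] at hc
          rcases hc with hc | hc
          · have h0 : b.2.1 = 0 := by omega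
            simp [gap, useR, useL, heq, h0]
          · simp only [Bool.not_eq_false] at hc
            simp [gap, useR, useL, hqa, hc, heq]
        rw [hg]
        simp only [List.nil_append, List.isChain_cons_cons, List.isChain_singleton, and_true]
        exact flat_OO ha hb hrel heq hOO
  · have hs : a.2.1 = b.2.1 + 1 := by omega
    have hat : 1 ≤ a.2.1 := by omega
    cases hqa : q k a.2 with
    | false =>
      have hg : gap Prod.snd (Nc h (K + 1) k x) k a b = [] := by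
        simp [gap, useR, useL, hqa, hs]
      rw [hg]
      simp only [List.nil_append, List.isChain_cons_cons, List.isChain_singleton, and_true]
      exact down_OO ha hb hrel hs hqa hOO
    | true =>
      have l1 := link_ON ha hr hat hqa (inner_T ha hτa hat hqa)
      by_cases hc : 1 ≤ b.2.1 ∧ q k b.2 = false
      · have hg : gap Prod.snd (Nc h (K + 1) k x) k a b =
            [Nc h (K + 1) k x a, Nc h (K + 1) k x b] := by
          simp [gap, useR, useL, hqa, hs, hc.1, hc.2]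
        rw [hg]
        simp only [List.cons_append, List.nil_append, List.isChain_cons_cons,
          List.isChain_singleton, and_true]
        exact ⟨l1, down_NN ha hb hrel hs hc.1 hqa (hNN hat hc.1),
          link_NO hb hr hc.1 hc.2 (inner_F hb hτb hc.1 hc.2)⟩
      · have hL : useL k a.2 b.2 = false := by
          rw [not_and_or] at hc
          rcases hc with hc | hc
          · simp [useL, hc]
          · simp [useL, hc]
        have hg : gap Prod.snd (Nc h (K + 1) k x) k a b = [Nc h (K + 1) k x a] := by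
          simp [gap, hL, useR, hqa, hs]
        rw [hg]
        simp only [List.cons_append, List.nil_append, List.isChain_cons_cons,
          List.isChain_singleton, and_true]
        exact ⟨l1, down_NO ha hb hrel hs hqa (hNO hat)⟩

/-- every set of labels has a depth -/
lemma exists_dep (m : ℕ) (x y : ℕ → ℕ) (T : Finset ℕ) : ∃ t, Dep m x y T t := by
  classical
  let P : ℕ → Prop := fun t => ∀ i, 1 ≤ i → i ≤ t → x i ∈ T ∧ y i ∈ T
  have h0 : P 0 := fun i hi hi' => by omega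
  have h1 : P (Nat.findGreatest P m) := Nat.findGreatest_spec (m := 0) (Nat.zero_le m) h0
  refine ⟨Nat.findGreatest P m, Nat.findGreatest_le m, fun i hi hi' => (h1 i hi hi').1,
    fun i hi hi' => (h1 i hi hi').2, fun hlt => ?_⟩
  by_contra hcon
  rw [not_or, not_not, not_not] at hcon
  have h2 : P (Nat.findGreatest P m + 1) := by
    intro i hi hi'
    rcases Nat.lt_or_ge i (Nat.findGreatest P m + 1) with h | h
    · exact h1 i hi (by omega)
    · have : i = Nat.findGreatest P m + 1 := by omega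
      rw [this]
      exact hcon
  exact Nat.findGreatest_is_greatest (Nat.lt_succ_self _) hlt h2

/-- a facet stays covered -/
lemma cover_eventually {w : Vx d} (hv : IsV H K w) (hr : RO K m x y) {F : ℕ} (hF : F ∈ w.T) :
    ∀ᶠ δ in 𝓝[>] (0 : ℝ), ∃ w', IsV (upd H K (W H x y δ m 0)) (K + 1) w' ∧ F ∈ w'.T := by
  obtain ⟨t, hd⟩ := exists_dep m x y w.T
  have hle := hd.le
  rcases Nat.eq_zero_or_pos t with h0 | ht
  · subst h0
    filter_upwards [keep_eventually hv hr hd] with δ e1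
    exact ⟨w, hv.keep _ e1, hF⟩
  · by_cases hFx : F = x t
    · filter_upwards [near_eventually hv hr hd ht (Or.inr rfl)] with δ e1
      refine ⟨_, hv.piv _ _ (hd.my t ht le_rfl) e1.1 e1.2, ?_⟩
      rw [piv_T]
      refine Finset.mem_insert_of_mem (Finset.mem_erase.2 ⟨?_, hF⟩)
      rw [hFx]
      exact hr.xy t t ht hle ht hle
    · filter_upwards [near_eventually hv hr hd ht (Or.inl rfl)] with δ e1
      refine ⟨_, hv.piv _ _ (hd.mx t ht le_rfl) e1.1 e1.2, ?_⟩
      rw [piv_T]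
      exact Finset.mem_insert_of_mem (Finset.mem_erase.2 ⟨hFx, hF⟩)

/-- the invariant -/
structure Inv (H : ℕ → Form d) (c : Fin d → ℝ) (K m k : ℕ) (x y : ℕ → ℕ)
    (L : List (Vx d × Lt)) : Prop where
  ro : RO K m x y
  ok : ∀ p ∈ L, Ok H K m k x y c p
  chain : L.IsChain (Rel c k x y)
  cover : ∀ F, F ≤ K → ∃ w : Vx d, IsV H K w ∧ F ∈ w.T
  deep : ∃ p ∈ L, 1 ≤ p.2.1

lemma mem_O_stp {α : Type*} {lt : α → Lt} {O N : α → α} {k : ℕ} {l : List α} {b : α}
    (hb : b ∈ l) : O b ∈ stp lt O N k l := by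
  have h1 : ∀ (l : List α) (a b : α), b ∈ a :: l → O b ∈ go lt O N k a l := by
    intro l
    induction l with
    | nil =>
      intro a b hb
      have : b = a := by simpa using hb
      subst this
      exact List.mem_cons_self
    | cons c l ih =>
      intro a b hb
      rcases List.mem_cons.1 hb with h | h
      · subst h
        exact List.mem_cons_self
      · exact List.mem_cons_of_mem _ (List.mem_append_right _ (ih c b h))
  cases l with
  | nil => exact absurd hb List.not_mem_nil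
  | cons a l => exact List.mem_append_right _ (h1 l a b hb)

/-- the inductive step -/
theorem Inv.next {L : List (Vx d × Lt)} (hI : Inv H c K m k x y L) :
    ∃ h : Form d, Inv (upd H K h) c (K + 1) m (k + 1) (nx k (K + 1) x y) (ny k (K + 1) x y)
      (stp Prod.snd (Oc h (K + 1) y) (Nc h (K + 1) k x) k L) := by
  have hr := hI.ro
  have k1 : ∀ᶠ δ in 𝓝[>] (0 : ℝ), ∀ p ∈ L, Ok (upd H K (W H x y δ m 0)) (K + 1) m (k + 1)
      (nx k (K + 1) x y) (ny k (K + 1) x y) c (Oc (W H x y δ m 0) (K + 1) y p) :=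
    forall_eventually L (fun p hp => Ok_upper (hI.ok p hp) hr)
  have k2 : ∀ᶠ δ in 𝓝[>] (0 : ℝ), ∀ p ∈ L, 1 ≤ p.2.1 → Ok (upd H K (W H x y δ m 0)) (K + 1) m
      (k + 1) (nx k (K + 1) x y) (ny k (K + 1) x y) c (Nc (W H x y δ m 0) (K + 1) k x p) := by
    refine forall_eventually L (fun p hp => ?_)
    by_cases h : 1 ≤ p.2.1
    · filter_upwards [Ok_lower (hI.ok p hp) hr h] with δ e1 _
      exact e1
    · exact Eventually.of_forall (fun _ h' => absurd h' h)
  have k3 : ∀ᶠ δ in 𝓝[>] (0 : ℝ), ∀ p ∈ L, Tau (W H x y δ m 0) x y p :=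
    forall_eventually L (fun p hp => Tau_eventually (hI.ok p hp) hr)
  have k4 : ∀ᶠ δ in 𝓝[>] (0 : ℝ), L.IsChain (Ord c (W H x y δ m 0) K k x y) :=
    isChain_eventually L (isChain_imp_mem (fun a ha b hb h =>
      Ord_eventually (hI.ok a ha) (hI.ok b hb) hr h.1) hI.chain)
  have k5 : ∀ᶠ δ in 𝓝[>] (0 : ℝ), ∀ F ∈ Finset.range (K + 1),
      ∃ w', IsV (upd H K (W H x y δ m 0)) (K + 1) w' ∧ F ∈ w'.T := by
    rw [Finset.eventually_all]
    intro F hF
    obtain ⟨w, hw, hFw⟩ := hI.cover F (by simpa [Nat.lt_succ_iff] using hF)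
    exact cover_eventually hw hr hFw
  obtain ⟨δ, h1, h2, h3, h4, h5⟩ := (k1.and (k2.and (k3.and (k4.and k5)))).exists
  have hok : ∀ p ∈ stp Prod.snd (Oc (W H x y δ m 0) (K + 1) y) (Nc (W H x y δ m 0) (K + 1) k x)
      k L, Ok (upd H K (W H x y δ m 0)) (K + 1) m (k + 1)
      (nx k (K + 1) x y) (ny k (K + 1) x y) c p := by
    intro p hp
    obtain ⟨b, hb, rfl | ⟨rfl, hb1⟩⟩ := mem_stp hp
    · exact h1 b hb
    · exact h2 b hb hb1
  refine ⟨W H x y δ m 0, hr.next k, hok, ?_, ?_, ?_⟩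
  · refine chain_stp (P := fun a => Ok H K m k x y c a ∧ Tau (W H x y δ m 0) x y a)
      (R := fun a b => Rel c k x y a b ∧ Ord c (W H x y δ m 0) K k x y a b)
      (chain_pair hr) ?_ ?_ L (fun b hb => ⟨hI.ok b hb, h3 b hb⟩) ?_
    · rintro a ⟨ha, hτ⟩ he
      simp only [endR, Bool.and_eq_true, decide_eq_true_eq] at he
      exact link_ON ha hr he.1 he.2 (inner_T ha hτ he.1 he.2)
    · rintro a ⟨ha, hτ⟩ he
      simp only [endL, Bool.and_eq_true, decide_eq_true_eq, Bool.not_eq_true'] at he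
      exact link_NO ha hr he.1 he.2 (inner_F ha hτ he.1 he.2)
    · rw [List.isChain_iff_getElem]
      intro i hi
      exact ⟨List.isChain_iff_getElem.1 hI.chain i hi, List.isChain_iff_getElem.1 h4 i hi⟩
  · intro F hF
    rcases Nat.lt_or_ge K F with hlt | hge
    · have : F = K + 1 := by omega
      subst this
      obtain ⟨p, hp, hp1⟩ := hI.deep
      refine ⟨(Oc (W H x y δ m 0) (K + 1) y p).1, (h1 p hp).isV, ?_⟩
      rw [Oc_pos hp1]
      change K + 1 ∈ (piv (W H x y δ m 0) (K + 1) p.1 (y p.2.1)).T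
      rw [piv_T]
      exact Finset.mem_insert_self _ _
    · exact h5 F (Finset.mem_range.2 (by omega))
  · obtain ⟨p, hp, hp1⟩ := hI.deep
    refine ⟨_, mem_O_stp hp, ?_⟩
    rw [Oc_lt]
    exact hp1

end Pool.Agent.H81.MPA
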